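import Pool.Agent.Run7.h183.SmoothC

/-!
Random additive perturbations of a finite set of integers: final forms.
-/

set_option autoImplicit false

namespace Run7.h183.Smooth

open Finset

theorem big (c ε : ℝ) (hc : 0 < c) (hε : 0 < ε) :
    ∃ N₀ : ℕ, 1 ≤ N₀ ∧ ∀ N : ℕ, N₀ ≤ N → 1 ≤ c * (N : ℝ) ^ ε := by
  refine ⟨⌈(1 / c) ^ (1 / ε)⌉₊ + 1, by omega, fun N hN => ?_⟩
  have h1 : (1 / c) ^ (1 / ε) ≤ (N : ℝ) := by
    refine (Nat.le_ceil _).trans ?_
    exact_mod_cast (by omega : ⌈(1 / c) ^ (1 / ε)⌉₊ ≤ N)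
  have h2 : 1 / c ≤ (N : ℝ) ^ ε := by
    have h3 : ((1 / c) ^ (1 / ε)) ^ ε ≤ (N : ℝ) ^ ε :=
      Real.rpow_le_rpow (by positivity) h1 hε.le
    rwa [← Real.rpow_mul (by positivity), one_div_mul_cancel hε.ne', Real.rpow_one] at h3
  rw [div_le_iff₀ hc] at h2
  linarith

theorem final_k (k : ℕ) (hk : 1 ≤ k) (ε : ℝ) (hε : 0 < ε) (hε1 : ε ≤ 1) (d : ℕ) :
    ∃ δ : ℝ, 0 < δ ∧ ∀ w : ℕ, ∃ N₀ : ℕ, ∀ (Ω : Type) [Fintype Ω] [Nonempty Ω] (N : ℕ)
      (a : Fin N → ℤ) (φ : Fin N → Ω → ℤ), N₀ ≤ N → Function.Injective a →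
      (∀ i o, a i ≤ φ i o ∧ φ i o ≤ a i + w) →
      (∀ i v, ((univ.filter (fun o : Ω => φ i o = v)).card : ℝ) ≤ δ * Fintype.card Ω) →
      ∀ f : Polynomial ℤ, 1 ≤ f.natDegree → f.natDegree ≤ d →
      (((univ : Finset (Fin N → Ω)).filter (fun o =>
        ((prods k f (fun i => φ i (o i))).card : ℝ) < (N : ℝ) ^ ((k : ℝ) - ε))).card : ℝ) ≤
        Real.exp (-((N : ℝ) ^ (1 - ε))) * (Fintype.card Ω : ℝ) ^ N := by
  classical
  obtain ⟨δ, hδ, h⟩ := main_k k hk (ε / 3) (by positivity) (by linarith) d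
  refine ⟨δ, hδ, fun w => ?_⟩
  obtain ⟨c, hc, h⟩ := h w
  obtain ⟨N₀, hN₀, hb⟩ := big c (ε / 3) hc (by positivity)
  refine ⟨N₀, fun Ω _ _ N a φ hN hinj ha hat f hf hfd => ?_⟩
  have hN1 : 1 ≤ N := hN₀.trans hN
  have hNr : (1 : ℝ) ≤ N := by exact_mod_cast hN1
  have hN0 : (0 : ℝ) < N := by linarith
  have h1 := hb N hN
  have h2 := h Ω N a φ hN1 hinj ha hat f hf hfd
  have h3 : (N : ℝ) ^ ((k : ℝ) - ε) ≤ c * (N : ℝ) ^ ((k : ℝ) - ε / 3) := by
    have e : (N : ℝ) ^ ((k : ℝ) - ε / 3) = (N : ℝ) ^ ((k : ℝ) - ε) * ((N : ℝ) ^ (ε / 3) *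
        (N : ℝ) ^ (ε / 3)) := by
      rw [← Real.rpow_add hN0, ← Real.rpow_add hN0]
      congr 1
      ring
    rw [e]
    have h4 : 1 ≤ (N : ℝ) ^ (ε / 3) := Real.one_le_rpow hNr (by positivity)
    have h5 : 0 ≤ (N : ℝ) ^ ((k : ℝ) - ε) := by positivity
    have h6 : 1 ≤ c * ((N : ℝ) ^ (ε / 3) * (N : ℝ) ^ (ε / 3)) := by
      calc (1 : ℝ) ≤ c * (N : ℝ) ^ (ε / 3) := h1
        _ ≤ c * (N : ℝ) ^ (ε / 3) * (N : ℝ) ^ (ε / 3) := le_mul_of_one_le_right (by positivity) h4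
        _ = _ := by ring
    calc (N : ℝ) ^ ((k : ℝ) - ε) = (N : ℝ) ^ ((k : ℝ) - ε) * 1 := (mul_one _).symm
      _ ≤ (N : ℝ) ^ ((k : ℝ) - ε) * (c * ((N : ℝ) ^ (ε / 3) * (N : ℝ) ^ (ε / 3))) :=
          mul_le_mul_of_nonneg_left h6 h5
      _ = _ := by ring
  have h4 : (N : ℝ) ^ (1 - ε) ≤ c * (N : ℝ) ^ (1 - 2 * (ε / 3)) := by
    have e : (N : ℝ) ^ (1 - 2 * (ε / 3)) = (N : ℝ) ^ (1 - ε) * (N : ℝ) ^ (ε / 3) := by
      rw [← Real.rpow_add hN0]
      congr 1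
      ring
    rw [e]
    calc (N : ℝ) ^ (1 - ε) = (N : ℝ) ^ (1 - ε) * 1 := (mul_one _).symm
      _ ≤ (N : ℝ) ^ (1 - ε) * (c * (N : ℝ) ^ (ε / 3)) :=
          mul_le_mul_of_nonneg_left h1 (by positivity)
      _ = _ := by ring
  calc (((univ : Finset (Fin N → Ω)).filter (fun o =>
        ((prods k f (fun i => φ i (o i))).card : ℝ) < (N : ℝ) ^ ((k : ℝ) - ε))).card : ℝ)
      ≤ (((univ : Finset (Fin N → Ω)).filter (fun o =>
        ((prods k f (fun i => φ i (o i))).card : ℝ) <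
          c * (N : ℝ) ^ ((k : ℝ) - ε / 3))).card : ℝ) := by
        refine Nat.cast_le.2 (card_le_card fun o ho => ?_)
        exact mem_filter.2 ⟨mem_univ _, (mem_filter.1 ho).2.trans_le h3⟩
    _ ≤ _ := h2
    _ ≤ _ := mul_le_mul_of_nonneg_right (Real.exp_le_exp.2 (neg_le_neg h4)) (by positivity)

theorem final_A (ε : ℝ) (hε : 0 < ε) (hε1 : ε ≤ 1) (d : ℕ) :
    ∃ δ : ℝ, 0 < δ ∧ ∀ w : ℕ, ∃ N₀ : ℕ, ∀ (Ω : Type) [Fintype Ω] [Nonempty Ω] (N : ℕ)
      (a : Fin N → ℤ) (φ : Fin N → Ω → ℤ), N₀ ≤ N → Function.Injective a →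
      (∀ i o, a i ≤ φ i o ∧ φ i o ≤ a i + w) →
      (∀ i v, ((univ.filter (fun o : Ω => φ i o = v)).card : ℝ) ≤ δ * Fintype.card Ω) →
      ∀ f : Polynomial ℤ, 1 ≤ f.natDegree → f.natDegree ≤ d →
      ∀ B : Finset ℂ, B.Nonempty → (0 : ℂ) ∉ B →
      (((univ : Finset (Fin N → Ω)).filter (fun o =>
        ((mult B f (fun i => φ i (o i))).card : ℝ) < (B.card * (N : ℝ)) ^ (1 - ε))).card : ℝ) ≤
        Real.exp (-((N : ℝ) ^ (1 - ε))) * (Fintype.card Ω : ℝ) ^ N := by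
  classical
  have hε2 : ε ^ 2 ≤ ε := by nlinarith
  have hε20 : 0 < ε ^ 2 := by positivity
  obtain ⟨δ, hδ, h⟩ := main_A (ε ^ 2 / 8) (by positivity) (by linarith) d
  refine ⟨δ, hδ, fun w => ?_⟩
  obtain ⟨c, hc, h⟩ := h w
  obtain ⟨N₀, hN₀, hb⟩ := big c (ε / 2) hc (by positivity)
  refine ⟨max N₀ (d * (w + 1) + 1), fun Ω _ _ N a φ hN hinj ha hat f hf hfd B hB hB0 => ?_⟩
  have hN1 : 1 ≤ N := hN₀.trans ((le_max_left _ _).trans hN)
  have hN2 : d * (w + 1) < N := lt_of_lt_of_le (Nat.lt_succ_self _) ((le_max_right _ _).trans hN)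
  have hNr : (1 : ℝ) ≤ N := by exact_mod_cast hN1
  have hN0 : (0 : ℝ) < N := by linarith
  have h1 := hb N ((le_max_left _ _).trans hN)
  have hB1 : (1 : ℝ) ≤ B.card := by exact_mod_cast hB.card_pos
  have hBp : (0 : ℝ) < B.card := by linarith
  rcases le_or_gt ((N : ℝ) ^ (1 / ε)) (B.card : ℝ) with hbig | hsm
  · -- many multipliers
    have h2 : ∀ o : Fin N → Ω, ¬ ((mult B f (fun i => φ i (o i))).card : ℝ) <
        (B.card * (N : ℝ)) ^ (1 - ε) := by
      intro o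
      rw [not_lt]
      have h3 : (B.card : ℝ) ≤ (mult B f (fun i => φ i (o i))).card := by
        exact_mod_cast mult_ge B f hf (fun i => φ i (o i)) a hinj w (fun i => ha i (o i))
          (lt_of_le_of_lt (Nat.mul_le_mul_right _ hfd) hN2)
      refine le_trans ?_ h3
      have h4 : (N : ℝ) ≤ (B.card : ℝ) ^ ε := by
        have h5 := Real.rpow_le_rpow (by positivity) hbig hε.le
        rwa [← Real.rpow_mul hN0.le, one_div_mul_cancel hε.ne', Real.rpow_one] at h5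
      have h5 : (N : ℝ) ^ (1 - ε) ≤ (B.card : ℝ) ^ ε := by
        refine le_trans ?_ h4
        calc (N : ℝ) ^ (1 - ε) ≤ (N : ℝ) ^ (1 : ℝ) :=
              Real.rpow_le_rpow_of_exponent_le hNr (by linarith)
          _ = N := Real.rpow_one _
      rw [Real.mul_rpow hBp.le hN0.le]
      calc (B.card : ℝ) ^ (1 - ε) * (N : ℝ) ^ (1 - ε) ≤ (B.card : ℝ) ^ (1 - ε) * (B.card : ℝ) ^ ε :=
            mul_le_mul_of_nonneg_left h5 (by positivity)
        _ = B.card := by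
            rw [← Real.rpow_add hBp]
            simp
    rw [filter_false_of_mem fun o _ => h2 o]
    simp only [card_empty, Nat.cast_zero]
    positivity
  · -- few multipliers
    have h2 := h Ω N a φ hN1 hinj ha hat f hf hfd B hB hB0
    have hBN : (0 : ℝ) < (B.card : ℝ) * N := by positivity
    have hN2' : 1 ≤ c * (N : ℝ) ^ (ε / 2) := h1
    have h3 : ((B.card : ℝ) * N) ^ (1 - ε) ≤ c * ((B.card : ℝ) * N) ^ (1 - ε ^ 2 / 8) := by
      have e : ((B.card : ℝ) * N) ^ (1 - ε ^ 2 / 8) =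
          ((B.card : ℝ) * N) ^ (1 - ε) * ((B.card : ℝ) * N) ^ (ε - ε ^ 2 / 8) := by
        rw [← Real.rpow_add hBN]
        congr 1
        ring
      have h4 : (N : ℝ) ^ (ε / 2) ≤ ((B.card : ℝ) * N) ^ (ε - ε ^ 2 / 8) := by
        calc (N : ℝ) ^ (ε / 2) ≤ (N : ℝ) ^ (ε - ε ^ 2 / 8) :=
              Real.rpow_le_rpow_of_exponent_le hNr (by linarith)
          _ ≤ _ := Real.rpow_le_rpow hN0.le (by nlinarith) (by linarith)
      rw [e]
      calc ((B.card : ℝ) * N) ^ (1 - ε) = ((B.card : ℝ) * N) ^ (1 - ε) * 1 := (mul_one _).symm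
        _ ≤ ((B.card : ℝ) * N) ^ (1 - ε) * (c * ((B.card : ℝ) * N) ^ (ε - ε ^ 2 / 8)) := by
            refine mul_le_mul_of_nonneg_left ?_ (by positivity)
            exact hN2'.trans (mul_le_mul_of_nonneg_left h4 hc.le)
        _ = _ := by ring
    have h4 : (N : ℝ) ^ (1 - ε) ≤
        c * ((N : ℝ) ^ (1 - 2 * (ε ^ 2 / 8)) * (B.card : ℝ) ^ (-(2 * (ε ^ 2 / 8)))) := by
      have h5 : (N : ℝ) ^ (-(ε / 4)) ≤ (B.card : ℝ) ^ (-(2 * (ε ^ 2 / 8))) := by
        have h6 : (B.card : ℝ) ^ (2 * (ε ^ 2 / 8)) ≤ (N : ℝ) ^ (ε / 4) := by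
          calc (B.card : ℝ) ^ (2 * (ε ^ 2 / 8)) ≤ ((N : ℝ) ^ (1 / ε)) ^ (2 * (ε ^ 2 / 8)) :=
                Real.rpow_le_rpow hBp.le hsm.le (by positivity)
            _ = (N : ℝ) ^ (ε / 4) := by
                rw [← Real.rpow_mul hN0.le]
                congr 1
                field_simp
                ring
        rw [Real.rpow_neg hN0.le, Real.rpow_neg hBp.le]
        exact inv_anti₀ (by positivity) h6
      have h6 : (N : ℝ) ^ (1 - ε / 2) ≤
          (N : ℝ) ^ (1 - 2 * (ε ^ 2 / 8)) * (B.card : ℝ) ^ (-(2 * (ε ^ 2 / 8))) := by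
        calc (N : ℝ) ^ (1 - ε / 2) ≤ (N : ℝ) ^ (1 - 2 * (ε ^ 2 / 8) + -(ε / 4)) :=
              Real.rpow_le_rpow_of_exponent_le hNr (by linarith)
          _ = (N : ℝ) ^ (1 - 2 * (ε ^ 2 / 8)) * (N : ℝ) ^ (-(ε / 4)) := Real.rpow_add hN0 _ _
          _ ≤ _ := mul_le_mul_of_nonneg_left h5 (by positivity)
      have e : (N : ℝ) ^ (1 - ε / 2) = (N : ℝ) ^ (1 - ε) * (N : ℝ) ^ (ε / 2) := by
        rw [← Real.rpow_add hN0]
        congr 1
        ring
      calc (N : ℝ) ^ (1 - ε) = (N : ℝ) ^ (1 - ε) * 1 := (mul_one _).symm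
        _ ≤ (N : ℝ) ^ (1 - ε) * (c * (N : ℝ) ^ (ε / 2)) :=
            mul_le_mul_of_nonneg_left hN2' (by positivity)
        _ = c * (N : ℝ) ^ (1 - ε / 2) := by rw [e]; ring
        _ ≤ _ := mul_le_mul_of_nonneg_left h6 hc.le
    calc (((univ : Finset (Fin N → Ω)).filter (fun o =>
          ((mult B f (fun i => φ i (o i))).card : ℝ) < (B.card * (N : ℝ)) ^ (1 - ε))).card : ℝ)
        ≤ (((univ : Finset (Fin N → Ω)).filter (fun o =>
          ((mult B f (fun i => φ i (o i))).card : ℝ) <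
            c * (B.card * (N : ℝ)) ^ (1 - ε ^ 2 / 8))).card : ℝ) := by
          refine Nat.cast_le.2 (card_le_card fun o ho => ?_)
          exact mem_filter.2 ⟨mem_univ _, (mem_filter.1 ho).2.trans_le h3⟩
      _ ≤ _ := h2
      _ ≤ _ := mul_le_mul_of_nonneg_right (Real.exp_le_exp.2 (neg_le_neg h4)) (by positivity)

/-- union bound -/
theorem union {α ι : Type} [Fintype α] (F : Finset ι) (Bad : ι → α → Prop)
    [∀ f, DecidablePred (fun o => Bad f o)] [DecidablePred (fun o => ∃ f ∈ F, Bad f o)] (t : ℝ) (h : ∀ f ∈ F, (((univ : Finset α).filter (fun o => Bad f o)).card : ℝ) ≤ t) :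
    (((univ : Finset α).filter (fun o => ∃ f ∈ F, Bad f o)).card : ℝ) ≤ F.card * t := by
  classical
  have h1 : (univ : Finset α).filter (fun o => ∃ f ∈ F, Bad f o) ⊆
      F.biUnion fun f => (univ : Finset α).filter (fun o => Bad f o) := by
    intro o ho
    obtain ⟨f, hf, hb⟩ := (mem_filter.1 ho).2
    exact mem_biUnion.2 ⟨f, hf, mem_filter.2 ⟨mem_univ _, hb⟩⟩
  calc (((univ : Finset α).filter (fun o => ∃ f ∈ F, Bad f o)).card : ℝ)
      ≤ ∑ f ∈ F, (((univ : Finset α).filter (fun o => Bad f o)).card : ℝ) := by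
        exact_mod_cast (card_le_card h1).trans card_biUnion_le
    _ ≤ ∑ f ∈ F, t := sum_le_sum h
    _ = F.card * t := by rw [sum_const, nsmul_eq_mul]

/-- the polynomials of bounded degree and height -/
noncomputable def polys (d H : ℕ) : Finset (Polynomial ℤ) :=
  (Fintype.piFinset fun _ : Fin (d + 1) => Icc (-(H : ℤ)) H).image
    fun v => ∑ i : Fin (d + 1), Polynomial.C (v i) * Polynomial.X ^ (i : ℕ)

theorem polys_card (d H : ℕ) : (polys d H).card ≤ (2 * H + 1) ^ (d + 1) := by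
  refine card_image_le.trans ?_
  rw [Fintype.card_piFinset, prod_const, card_univ, Fintype.card_fin, Int.card_Icc]
  have : ((H : ℤ) + 1 - -(H : ℤ)).toNat = 2 * H + 1 := by omega
  rw [this]

theorem mem_polys (d H : ℕ) (f : Polynomial ℤ) (hd : f.natDegree ≤ d)
    (hf : ∀ i, |f.coeff i| ≤ (H : ℤ)) : f ∈ polys d H := by
  refine mem_image.2 ⟨fun i => f.coeff i, ?_, ?_⟩
  · rw [Fintype.mem_piFinset]
    intro i
    rw [mem_Icc]
    exact abs_le.1 (hf i)
  · have h1 := f.as_sum_range_C_mul_X_pow' (n := d + 1) (by omega)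
    rw [Finset.sum_range] at h1
    exact h1.symm

/-- one perturbation for all polynomials of large height -/
theorem all_polys (k : ℕ) (hk : 1 ≤ k) (ε : ℝ) (hε : 0 < ε) (hε1 : ε ≤ 1) (d : ℕ) :
    ∃ n N₀ : ℕ, ∀ A : Finset ℤ, N₀ ≤ A.card → ∃ t : ℤ → ℤ, (∀ x, 0 ≤ t x ∧ t x < n) ∧
      ∀ f : Polynomial ℤ, 1 ≤ f.natDegree → f.natDegree ≤ d →
      (∀ i, ((|f.coeff i| : ℤ) : ℝ) ≤ Real.exp ((A.card : ℝ) ^ (1 - ε))) →
      (A.card : ℝ) ^ ((k : ℝ) - ε) ≤
        (((Fintype.piFinset fun _ : Fin k => A).image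
          fun x => ∏ j, f.eval (x j + t (x j))).card : ℝ) := by
  classical
  obtain ⟨δ, hδ, h⟩ := final_k k hk (ε / 2) (by positivity) (by linarith) d
  obtain ⟨n, hn⟩ := exists_nat_gt (1 / δ)
  have hn0 : 0 < n := by
    have h1 : (0 : ℝ) < n := lt_trans (by positivity) hn
    exact_mod_cast h1
  obtain ⟨N₀, h⟩ := h n
  obtain ⟨N₁, hN₁, hb⟩ := big (1 / (3 * (d + 1))) (ε / 2) (by positivity) (by positivity)
  refine ⟨n, max N₀ (N₁ + 1), fun A hA => ?_⟩
  set N := A.card with hN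
  have hNN₀ : N₀ ≤ N := (le_max_left _ _).trans hA
  have hNN₁ : N₁ + 1 ≤ N := (le_max_right _ _).trans hA
  have : Nonempty (Fin n) := ⟨⟨0, hn0⟩⟩
  have hNr : (1 : ℝ) < N := by
    have : 1 < N := by omega
    exact_mod_cast this
  have hN0 : (0 : ℝ) < N := by linarith
  set e := A.equivFin with he
  set a : Fin N → ℤ := fun i => ((e.symm i : A) : ℤ) with ha
  set φ : Fin N → Fin n → ℤ := fun i o => a i + (o : ℕ) with hφ
  have hinj : Function.Injective a := fun i j hij => by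
    have : e.symm i = e.symm j := Subtype.ext hij
    exact e.symm.injective this
  have hH : Real.exp ((N : ℝ) ^ (1 - ε)) < (⌊Real.exp ((N : ℝ) ^ (1 - ε))⌋₊ : ℝ) + 1 :=
    Nat.lt_floor_add_one _
  set H : ℕ := ⌊Real.exp ((N : ℝ) ^ (1 - ε))⌋₊ with hHdef
  have hHle : (H : ℝ) ≤ Real.exp ((N : ℝ) ^ (1 - ε)) := Nat.floor_le (Real.exp_pos _).le
  set F := (polys d H).filter (fun f => 1 ≤ f.natDegree ∧ f.natDegree ≤ d) with hF
  have hu := union (α := Fin N → Fin n) F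
    (fun f o => ((prods k f (fun i => φ i (o i))).card : ℝ) < (N : ℝ) ^ ((k : ℝ) - ε / 2))
    (Real.exp (-((N : ℝ) ^ (1 - ε / 2))) * (Fintype.card (Fin n) : ℝ) ^ N) (by
      intro f hf
      obtain ⟨hf1, hf2, hf3⟩ := mem_filter.1 hf
      refine h (Fin n) N a φ hNN₀ hinj ?_ ?_ f hf2 hf3
      · intro i o
        have h1 : ((o : ℕ) : ℤ) ≤ n := by
          have := o.2
          omega
        refine ⟨?_, ?_⟩
        · show a i ≤ a i + ((o : ℕ) : ℤ)
          omega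
        · show a i + ((o : ℕ) : ℤ) ≤ a i + n
          omega
      · intro i v
        have h1 : ((univ : Finset (Fin n)).filter (fun o => φ i o = v)).card ≤ 1 := by
          rw [card_le_one]
          intro o ho o' ho'
          have h2 : a i + ((o : ℕ) : ℤ) = v := (mem_filter.1 ho).2
          have h3 : a i + ((o' : ℕ) : ℤ) = v := (mem_filter.1 ho').2
          exact Fin.ext (by omega)
        have h2 : (((univ : Finset (Fin n)).filter (fun o => φ i o = v)).card : ℝ) ≤ 1 := by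
          exact_mod_cast h1
        refine h2.trans ?_
        rw [Fintype.card_fin]
        rw [div_lt_iff₀ hδ] at hn
        linarith)
  -- the number of the polynomials
  have hFc : (F.card : ℝ) < Real.exp ((N : ℝ) ^ (1 - ε / 2)) := by
    have h1 : (F.card : ℝ) ≤ (2 * H + 1) ^ (d + 1) := by
      exact_mod_cast (card_filter_le _ _).trans (polys_card d H)
    have h2 : (1 : ℝ) ≤ (N : ℝ) ^ (1 - ε) := Real.one_le_rpow hNr.le (by linarith)
    have h3 : 2 * (H : ℝ) + 1 < Real.exp (3 * (N : ℝ) ^ (1 - ε)) := by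
      have h4 : Real.exp 1 ≤ Real.exp ((N : ℝ) ^ (1 - ε)) := Real.exp_le_exp.2 h2
      have h5 : (2.7 : ℝ) < Real.exp 1 := by
        have := Real.exp_one_gt_d9
        linarith
      have h6 : Real.exp (3 * (N : ℝ) ^ (1 - ε)) = Real.exp ((N : ℝ) ^ (1 - ε)) ^ 3 := by
        rw [← Real.exp_nat_mul]
        norm_num
      rw [h6]
      set E := Real.exp ((N : ℝ) ^ (1 - ε)) with hE
      have h7 : (2.7 : ℝ) < E := by linarith
      have h8 : 7 * E < E ^ 3 := by nlinarith [mul_pos (by linarith : (0 : ℝ) < E) (by linarith : (0 : ℝ) < E - 2.7)]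
      nlinarith
    have h4 : ((2 * H + 1 : ℝ)) ^ (d + 1) < Real.exp (3 * (N : ℝ) ^ (1 - ε)) ^ (d + 1) :=
      pow_lt_pow_left₀ h3 (by positivity) (by omega)
    refine lt_of_le_of_lt h1 (h4.trans_le ?_)
    rw [← Real.exp_nat_mul]
    refine Real.exp_le_exp.2 ?_
    have h5 := hb N (by omega)
    have e1 : (N : ℝ) ^ (1 - ε / 2) = (N : ℝ) ^ (1 - ε) * (N : ℝ) ^ (ε / 2) := by
      rw [← Real.rpow_add hN0]
      congr 1
      ring
    rw [e1]
    have h6 : 3 * ((d : ℝ) + 1) ≤ (N : ℝ) ^ (ε / 2) := by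
      rw [one_div, inv_mul_eq_div, le_div_iff₀ (by positivity)] at h5
      linarith
    push_cast
    nlinarith
  have hc : (0 : ℝ) < (Fintype.card (Fin n) : ℝ) ^ N := by
    rw [Fintype.card_fin]
    positivity
  have hlt : ((((univ : Finset (Fin N → Fin n))).filter (fun o => ∃ f ∈ F,
      ((prods k f (fun i => φ i (o i))).card : ℝ) < (N : ℝ) ^ ((k : ℝ) - ε / 2))).card : ℝ) <
      (Fintype.card (Fin n) : ℝ) ^ N := by
    refine lt_of_le_of_lt hu ?_
    rw [← mul_assoc]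
    have h1 : (F.card : ℝ) * Real.exp (-((N : ℝ) ^ (1 - ε / 2))) < 1 := by
      rw [Real.exp_neg, ← div_eq_mul_inv, div_lt_one (Real.exp_pos _)]
      exact hFc
    nlinarith
  have hex : ∃ o : Fin N → Fin n, ¬ ∃ f ∈ F,
      ((prods k f (fun i => φ i (o i))).card : ℝ) < (N : ℝ) ^ ((k : ℝ) - ε / 2) := by
    by_contra hcon
    push Not at hcon
    rw [filter_true_of_mem fun o _ => hcon o, card_univ, Fintype.card_fun, Fintype.card_fin,
      Fintype.card_fin] at hlt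
    push_cast at hlt
    exact lt_irrefl _ hlt
  obtain ⟨o, ho⟩ := hex
  refine ⟨fun x => if hx : x ∈ A then ((o (e ⟨x, hx⟩) : ℕ) : ℤ) else 0, ?_, ?_⟩
  · intro x
    by_cases hx : x ∈ A
    · have h1 := (o (e ⟨x, hx⟩)).2
      simp only [hx, dif_pos]
      exact ⟨by omega, by exact_mod_cast h1⟩
    · simp only [hx, dif_neg, not_false_iff]
      exact ⟨le_rfl, by exact_mod_cast hn0⟩
  · intro f hf hfd hco
    have hfF : f ∈ F := by
      refine mem_filter.2 ⟨mem_polys d H f hfd fun i => ?_, hf, hfd⟩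
      have h1 := hco i
      have h2 : |f.coeff i| = ((|f.coeff i|.toNat : ℕ) : ℤ) :=
        (Int.toNat_of_nonneg (abs_nonneg _)).symm
      have h3 : ((|f.coeff i|.toNat : ℕ) : ℝ) ≤ Real.exp ((N : ℝ) ^ (1 - ε)) := by
        have h4 : (((|f.coeff i|.toNat : ℕ) : ℤ) : ℝ) ≤ Real.exp ((N : ℝ) ^ (1 - ε)) := by
          rw [← h2]
          exact h1
        exact_mod_cast h4
      have h4 : |f.coeff i|.toNat ≤ H := Nat.le_floor h3
      omega
    have h1 : (N : ℝ) ^ ((k : ℝ) - ε / 2) ≤ ((prods k f (fun i => φ i (o i))).card : ℝ) := by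
      by_contra hcon
      rw [not_le] at hcon
      exact ho ⟨f, hfF, hcon⟩
    have h2 : (N : ℝ) ^ ((k : ℝ) - ε) ≤ (N : ℝ) ^ ((k : ℝ) - ε / 2) :=
      Real.rpow_le_rpow_of_exponent_le hNr.le (by linarith)
    refine h2.trans (h1.trans (Nat.cast_le.2 (card_le_card ?_)))
    intro u hu
    unfold prods at hu
    obtain ⟨ι, -, rfl⟩ := mem_image.1 hu
    refine mem_image.2 ⟨fun j => a (ι j), ?_, ?_⟩
    · rw [Fintype.mem_piFinset]
      intro j
      exact (e.symm (ι j)).2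
    · refine prod_congr rfl fun j _ => ?_
      have h3 : a (ι j) ∈ A := (e.symm (ι j)).2
      have h4 : e ⟨a (ι j), h3⟩ = ι j := by
        have : (⟨a (ι j), h3⟩ : A) = e.symm (ι j) := Subtype.ext rfl
        rw [this, Equiv.apply_symm_apply]
      have h5 : (if hx : a (ι j) ∈ A then ((o (e ⟨a (ι j), hx⟩) : ℕ) : ℤ) else 0) =
          ((o (ι j) : ℕ) : ℤ) := by
        rw [dif_pos h3, h4]
      show f.eval (a (ι j) + (if hx : a (ι j) ∈ A then ((o (e ⟨a (ι j), hx⟩) : ℕ) : ℤ) else 0)) =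
        f.eval (φ (ι j) (o (ι j)))
      rw [h5]

end Run7.h183.Smooth
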