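import Pool.Agent.Run7.h183.MultB

/-!
Random multiplicative perturbations of a finite set of integers: main theorem.
-/

set_option autoImplicit false

namespace Run7.h183.Mult

open Finset Run7.h183.Smooth

/-- the values of one variable -/
theorem img_card {Ω : Type} [Fintype Ω] {N : ℕ} (t : ℚ) (a : Fin N → ℤ) (φ : Fin N → Ω → ℤ) (w : ℕ)
    (ha : ∀ i o, ∃ j : ℤ, |j| ≤ w ∧ (φ i o : ℚ) = a i * t ^ j) (i : Fin N) :
    (univ.image (φ i)).card ≤ 2 * w + 1 := by
  classical
  have h1 : (univ.image (φ i)).image (fun z : ℤ => (z : ℚ)) ⊆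
      (Icc (-(w : ℤ)) w).image (fun j : ℤ => (a i : ℚ) * t ^ j) := by
    intro q hq
    obtain ⟨z, hz, rfl⟩ := mem_image.1 hq
    obtain ⟨o, -, rfl⟩ := mem_image.1 hz
    obtain ⟨j, hj, he⟩ := ha i o
    exact mem_image.2 ⟨j, mem_Icc.2 (abs_le.1 hj), he.symm⟩
  have h2 : ((univ.image (φ i)).image (fun z : ℤ => (z : ℚ))).card = (univ.image (φ i)).card :=
    card_image_of_injective _ Int.cast_injective
  rw [← h2]
  refine (card_le_card h1).trans (card_image_le.trans ?_)
  rw [Int.card_Icc]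
  omega

/-- the variables with a given value -/
theorem mul_card {Ω : Type} [Fintype Ω] {N : ℕ} (t : ℚ) (ht : t ≠ 0) (a : Fin N → ℤ)
    (hinj : Function.Injective a) (φ : Fin N → Ω → ℤ) (w : ℕ)
    (ha : ∀ i o, ∃ j : ℤ, |j| ≤ w ∧ (φ i o : ℚ) = a i * t ^ j) (M : ℝ) (x : ℤ) :
    ((univ : Finset (Fin N)).filter (fun i => x ∈ V φ M i)).card ≤ 2 * w + 1 := by
  classical
  have h1 : ((univ : Finset (Fin N)).filter (fun i => x ∈ V φ M i)).card ≤
      ((Icc (-(w : ℤ)) w).image (fun j : ℤ => (x : ℚ) * t ^ (-j))).card := by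
    refine card_le_card_of_injOn (fun i => (a i : ℚ)) ?_ ?_
    · intro i hi
      have h2 := (mem_filter.1 (mem_coe.1 hi)).2
      unfold V at h2
      obtain ⟨o, -, ho⟩ := mem_image.1 (mem_filter.1 h2).1
      obtain ⟨j, hj, he⟩ := ha i o
      refine mem_coe.2 (mem_image.2 ⟨j, mem_Icc.2 (abs_le.1 hj), ?_⟩)
      show (x : ℚ) * t ^ (-j) = a i
      rw [← ho, he, mul_assoc, ← zpow_add₀ ht]
      simp
    · intro i _ i' _ h
      have h3 : (a i : ℚ) = a i' := h
      exact hinj (by exact_mod_cast h3)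
  refine h1.trans (card_image_le.trans ?_)
  rw [Int.card_Icc]
  omega

theorem main_S (k : ℕ) (hk : 1 ≤ k) (ε : ℝ) (hε : 0 < ε) (hε1 : ε ≤ 1) :
    ∃ C : ℝ, 0 < C ∧ ∃ N₀ : ℕ, ∀ (Ω : Type) [Fintype Ω] [Nonempty Ω] (N w : ℕ) (t : ℚ)
      (a : Fin N → ℤ) (φ : Fin N → Ω → ℤ), N₀ ≤ N → (2 * w + 1 : ℝ) ≤ (N : ℝ) ^ (ε / (16 * k)) →
      t ≠ 0 → t ≠ 1 → t ≠ -1 → Function.Injective a → (∀ i, a i ≠ 0) →
      (∀ i o, ∃ j : ℤ, |j| ≤ w ∧ (φ i o : ℚ) = a i * t ^ j) →
      (∀ i v, C * Real.log N * ((univ.filter (fun o : Ω => φ i o = v)).card : ℝ) ≤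
        Fintype.card Ω) →
      ∀ (lam : Fin k → ℤ) (m : Fin k → ℕ), (∀ j, lam j ≠ 0) → (∀ j, 1 ≤ m j) →
      ∀ B : Finset ℤ, B.Nonempty →
      (((univ : Finset (Fin N → Ω)).filter (fun o =>
        ((sums k lam m B (fun i => φ i (o i))).card : ℝ) <
          ((N : ℝ) ^ k * B.card) ^ (1 - ε))).card : ℝ) ≤
        Real.exp (-((N : ℝ) ^ (1 - ε))) * (Fintype.card Ω : ℝ) ^ N := by
  classical
  have hkr : (1 : ℝ) ≤ k := by exact_mod_cast hk
  have hk0 : (0 : ℝ) < k := by linarith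
  set ε' : ℝ := ε ^ 2 / (16 * k ^ 2) with hε'
  have hε'0 : 0 < ε' := by positivity
  have hε'1 : ε' ≤ 1 := by
    rw [hε', div_le_iff₀ (by positivity)]
    nlinarith [pow_le_one₀ (n := 2) hε.le hε1, one_le_pow₀ (n := 2) hkr]
  set E : ℝ := k * ε' with hE
  have hEe : E = ε ^ 2 / (16 * k) := by
    rw [hE, hε']
    field_simp
  have hE0 : 0 < E := by positivity
  have hE1 : E ≤ 1 := by
    rw [hEe, div_le_iff₀ (by positivity)]
    nlinarith [pow_le_one₀ (n := 2) hε.le hε1]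
  set K : ℝ := 64 * k ^ 2 * 16 ^ k with hK
  have hK1 : 64 ≤ K := by
    rw [hK]
    have h1 : (1 : ℝ) ≤ (k : ℝ) ^ 2 := one_le_pow₀ hkr
    have h2 : (1 : ℝ) ≤ (16 : ℝ) ^ k := one_le_pow₀ (by norm_num)
    nlinarith
  obtain ⟨N₁, hN₁, hb⟩ := big (1 / K) (ε / 8) (by positivity) (by positivity)
  refine ⟨24 / ε' * Real.exp (6 / ε'), by positivity, max N₁ 2, ?_⟩
  intro Ω _ _ N w t a φ hN hwN ht0 ht1 ht2 hinj ha0 ha hat lam m hl hm B hB
  have hNN : 2 ≤ N := (le_max_right _ _).trans hN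
  have hN1 : 1 ≤ N := by omega
  have hN2 : (2 : ℝ) ≤ N := by exact_mod_cast hNN
  have hNr : (1 : ℝ) ≤ N := by linarith
  have hN0 : (0 : ℝ) < N := by linarith
  have hlogN : 0 < Real.log N := Real.log_pos (by linarith)
  have hΩ : (0 : ℝ) < (Fintype.card Ω : ℝ) ^ N := by
    have : (0 : ℝ) < Fintype.card Ω := by exact_mod_cast Fintype.card_pos
    positivity
  set Z : ℝ := (N : ℝ) ^ (ε / 8) with hZ
  have hZK : K ≤ Z := by
    have h1 := hb N ((le_max_left _ _).trans hN)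
    rw [one_div, inv_mul_eq_div, le_div_iff₀ (by positivity)] at h1
    linarith
  have hZ1 : 1 ≤ Z := by linarith
  have hZ0 : 0 < Z := by linarith
  have hZ8 : Z ^ 8 = (N : ℝ) ^ ε := by
    rw [hZ, ← Real.rpow_natCast, ← Real.rpow_mul hN0.le]
    congr 1
    push_cast
    ring
  have hZN : Z ^ 8 ≤ N := by
    rw [hZ8]
    calc (N : ℝ) ^ ε ≤ (N : ℝ) ^ (1 : ℝ) := Real.rpow_le_rpow_of_exponent_le hNr hε1
      _ = N := Real.rpow_one _
  set W : ℕ := 2 * w + 1 with hW
  have hWr : (W : ℝ) = 2 * w + 1 := by rw [hW]; push_cast; ring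
  have hW1 : (1 : ℝ) ≤ W := by rw [hWr]; linarith [Nat.cast_nonneg (α := ℝ) w]
  have hW0 : (0 : ℝ) < W := by linarith
  have hWk : (W : ℝ) ^ (2 * k) ≤ Z := by
    have h1 : (W : ℝ) ^ (2 * k) ≤ ((N : ℝ) ^ (ε / (16 * k))) ^ (2 * k) :=
      pow_le_pow_left₀ hW0.le (by rw [hWr]; exact hwN) _
    refine h1.trans (le_of_eq ?_)
    rw [hZ, ← Real.rpow_natCast, ← Real.rpow_mul hN0.le]
    congr 1
    push_cast
    field_simp
    ring
  have hWZ : (W : ℝ) ≤ Z := by
    refine le_trans ?_ hWk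
    calc (W : ℝ) = (W : ℝ) ^ 1 := (pow_one _).symm
      _ ≤ (W : ℝ) ^ (2 * k) := pow_le_pow_right₀ hW1 (by omega)
  have hb1 : (1 : ℝ) ≤ B.card := by exact_mod_cast hB.card_pos
  have hb0 : (0 : ℝ) < B.card := by linarith
  set P : ℝ := (N : ℝ) ^ k * B.card with hP
  have hNk : (N : ℝ) ≤ (N : ℝ) ^ k := by
    calc (N : ℝ) = (N : ℝ) ^ 1 := (pow_one _).symm
      _ ≤ (N : ℝ) ^ k := pow_le_pow_right₀ hNr hk
  have hPN : (N : ℝ) ≤ P := by
    rw [hP]
    nlinarith
  have hP0 : 0 < P := by linarith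
  have hP1 : 1 ≤ P := by linarith
  rcases le_or_gt ((N : ℝ) ^ ((k : ℝ) / ε)) (B.card : ℝ) with hbig | hsm
  · -- `B` is large
    have h2 : ∀ o : Fin N → Ω, ¬ ((sums k lam m B (fun i => φ i (o i))).card : ℝ) <
        P ^ (1 - ε) := by
      intro o
      rw [not_lt]
      have h3 : (B.card : ℝ) ≤ (sums k lam m B (fun i => φ i (o i))).card := by
        exact_mod_cast card_le_sums k hN1 lam m B _
      refine le_trans ?_ h3
      have h4 : (N : ℝ) ^ k ≤ (B.card : ℝ) ^ ε := by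
        have h5 := Real.rpow_le_rpow (by positivity) hbig hε.le
        rw [← Real.rpow_mul hN0.le, div_mul_cancel₀ _ hε.ne', Real.rpow_natCast] at h5
        exact h5
      have h5 : ((N : ℝ) ^ k) ^ (1 - ε) ≤ (B.card : ℝ) ^ ε := by
        refine le_trans ?_ h4
        calc ((N : ℝ) ^ k) ^ (1 - ε) ≤ ((N : ℝ) ^ k) ^ (1 : ℝ) :=
              Real.rpow_le_rpow_of_exponent_le (hNr.trans hNk) (by linarith)
          _ = (N : ℝ) ^ k := Real.rpow_one _
      rw [hP, Real.mul_rpow (by positivity) hb0.le]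
      calc ((N : ℝ) ^ k) ^ (1 - ε) * (B.card : ℝ) ^ (1 - ε)
          ≤ (B.card : ℝ) ^ ε * (B.card : ℝ) ^ (1 - ε) :=
            mul_le_mul_of_nonneg_right h5 (by positivity)
        _ = B.card := by
            rw [← Real.rpow_add hb0]
            simp
    rw [filter_false_of_mem fun o _ => h2 o]
    simp only [card_empty, Nat.cast_zero]
    positivity
  · -- the main case
    have hPE : P ^ E ≤ Z := by
      have h1 : P ≤ (N : ℝ) ^ ((k : ℝ) * (1 + 1 / ε)) := by
        have e : (N : ℝ) ^ ((k : ℝ) * (1 + 1 / ε)) = (N : ℝ) ^ k * (N : ℝ) ^ ((k : ℝ) / ε) := by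
          rw [← Real.rpow_natCast, ← Real.rpow_add hN0]
          congr 1
          field_simp
        rw [e, hP]
        exact mul_le_mul_of_nonneg_left hsm.le (by positivity)
      calc P ^ E ≤ ((N : ℝ) ^ ((k : ℝ) * (1 + 1 / ε))) ^ E :=
            Real.rpow_le_rpow hP0.le h1 hE0.le
        _ = (N : ℝ) ^ ((k : ℝ) * (1 + 1 / ε) * E) := (Real.rpow_mul hN0.le _ _).symm
        _ ≤ Z := by
            rw [hZ]
            refine Real.rpow_le_rpow_of_exponent_le hNr ?_
            have e : (k : ℝ) * (1 + 1 / ε) * E = (ε ^ 2 + ε) / 16 := by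
              rw [hEe]
              field_simp
            rw [e]
            nlinarith
    set M : ℝ := 2 * W with hM
    have hM0 : 0 < M := by positivity
    set X := XX φ M with hX
    have hI : ∀ i, (univ.image (φ i)).card ≤ W := fun i => img_card t a φ w ha i
    set δ : ℝ := 1 / (24 / ε' * Real.exp (6 / ε') * Real.log N) with hδ
    have hδ0 : 0 < δ := by positivity
    have hat' : ∀ i v, ((univ.filter (fun o : Ω => φ i o = v)).card : ℝ) ≤
        δ * Fintype.card Ω := by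
      intro i v
      have h1 := hat i v
      rw [hδ, div_mul_eq_mul_div, one_mul, le_div_iff₀ (by positivity)]
      linarith
    have hVc : ∀ i, 12 / ε' * Real.exp (6 / ε') * Real.log N ≤ ((V φ M i).card : ℝ) := by
      intro i
      have h1 := V_cardW φ W (by omega) δ hδ0 i (hI i) (hat' i)
      rw [← hM] at h1
      have h2 : 2 * δ * ((V φ M i).card : ℝ) =
          ((V φ M i).card : ℝ) / (12 / ε' * Real.exp (6 / ε') * Real.log N) := by
        rw [hδ]
        have := hlogN.ne'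
        field_simp
        ring
      rw [h2, le_div_iff₀ (by positivity), one_mul] at h1
      exact h1
    have hV1 : ∀ i, 1 ≤ (V φ M i).card := by
      intro i
      by_contra hcon
      have h1 : (V φ M i).card = 0 := by omega
      have h2 := hVc i
      rw [h1, Nat.cast_zero] at h2
      have h3 : 0 < 12 / ε' * Real.exp (6 / ε') * Real.log N := by positivity
      linarith
    have hXN : N ≤ W * X.card := XX_cardW φ W M hV1 (fun x => mul_card t ht0 a hinj φ w ha M x)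
    have hXNr : (N : ℝ) ≤ W * X.card := by exact_mod_cast hXN
    have hXle : X.card ≤ N * W := XX_leW φ W M hI
    have hXler : (X.card : ℝ) ≤ N * W := by exact_mod_cast hXle
    have hX0 : (0 : ℤ) ∉ X := by
      intro h
      obtain ⟨i, -, hi⟩ := mem_biUnion.1 h
      unfold V at hi
      obtain ⟨o, -, ho⟩ := mem_image.1 (mem_filter.1 hi).1
      obtain ⟨j, -, he⟩ := ha i o
      rw [ho] at he
      have h1 : (a i : ℚ) ≠ 0 := by exact_mod_cast ha0 i
      exact mul_ne_zero h1 (zpow_ne_zero j ht0) (by rw [← he]; simp)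
    have hXge : Z ^ 7 ≤ X.card := by
      have h1 : Z * Z ^ 7 ≤ Z * X.card := by
        calc Z * Z ^ 7 = Z ^ 8 := by ring
          _ ≤ (N : ℝ) := hZN
          _ ≤ (W : ℝ) * X.card := hXNr
          _ ≤ Z * X.card := mul_le_mul_of_nonneg_right hWZ (by positivity)
      exact le_of_mul_le_mul_left h1 hZ0
    have hX2 : 2 ≤ X.card := by
      have h1 : (2 : ℝ) ≤ X.card := by
        refine le_trans ?_ hXge
        calc (2 : ℝ) ≤ Z := by linarith
          _ = Z ^ 1 := (pow_one _).symm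
          _ ≤ Z ^ 7 := pow_le_pow_right₀ hZ1 (by norm_num)
      exact_mod_cast h1
    have hXr : (2 : ℝ) ≤ X.card := by exact_mod_cast hX2
    have hlog : Real.log (2 * X.card) ≤ 3 * Real.log N := by
      have h1 : 2 * (X.card : ℝ) ≤ (N : ℝ) ^ 3 := by
        have h2 : (W : ℝ) ≤ N := by
          refine hWZ.trans (le_trans ?_ hZN)
          calc Z = Z ^ 1 := (pow_one _).symm
            _ ≤ Z ^ 8 := pow_le_pow_right₀ hZ1 (by norm_num)
        calc 2 * (X.card : ℝ) ≤ N * (N * N) := by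
              refine mul_le_mul hN2 (hXler.trans ?_) (by positivity) (by positivity)
              exact mul_le_mul_of_nonneg_left h2 hN0.le
          _ = (N : ℝ) ^ 3 := by ring
      have h2 := Real.log_le_log (by positivity) h1
      rw [Real.log_pow] at h2
      exact_mod_cast h2
    have hfib : ∀ x ∈ X, 4 / ε' * Real.exp (6 / ε') * Real.log (2 * X.card) ≤
        ((X.filter fun y : ℤ => ∃ i : ℤ, (y : ℚ) = x * t ^ i).card : ℝ) := by
      intro x hx
      obtain ⟨i, -, hi⟩ := mem_biUnion.1 hx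
      have h1 : (V φ M i).card ≤ (X.filter fun y : ℤ => ∃ i : ℤ, (y : ℚ) = x * t ^ i).card := by
        refine card_le_card fun y hy => ?_
        refine mem_filter.2 ⟨mem_biUnion.2 ⟨i, mem_univ _, hy⟩, ?_⟩
        unfold V at hi hy
        obtain ⟨o, -, ho⟩ := mem_image.1 (mem_filter.1 hi).1
        obtain ⟨o', -, ho'⟩ := mem_image.1 (mem_filter.1 hy).1
        obtain ⟨j, -, he⟩ := ha i o
        obtain ⟨j', -, he'⟩ := ha i o'
        refine ⟨j' - j, ?_⟩
        rw [← ho, ← ho', he, he', mul_assoc, ← zpow_add₀ ht0]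
        congr 2
        ring
      have h2 : 4 / ε' * Real.exp (6 / ε') * Real.log (2 * X.card) ≤
          4 / ε' * Real.exp (6 / ε') * (3 * Real.log N) :=
        mul_le_mul_of_nonneg_left hlog (by positivity)
      calc _ ≤ _ := h2
        _ = 12 / ε' * Real.exp (6 / ε') * Real.log N := by ring
        _ ≤ _ := hVc i
        _ ≤ _ := by exact_mod_cast h1
    have hdet := det' ε' hε'0 hε'1 t ht0 ht1 ht2 X hX2 hX0 (by convert hfib) k lam m hl hm B hB
    set S := (((Fintype.piFinset fun _ : Fin k => X) ×ˢ B).image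
        (fun s => sm k lam m s.1 s.2)) with hS
    -- lower bound for `S`
    have h2W : (1 : ℝ) ≤ (2 * W) ^ k := one_le_pow₀ (by linarith)
    have hSlow : P / (Z * (2 * W) ^ k) ≤ (S.card : ℝ) := by
      refine le_trans ?_ hdet
      have h1 : P / (2 * W) ^ k ≤ ((X.card : ℝ) / 2) ^ k * B.card := by
        have h2 : (N : ℝ) / (2 * W) ≤ (X.card : ℝ) / 2 := by
          rw [div_le_iff₀ (by positivity)]
          linarith
        calc P / (2 * W) ^ k = ((N : ℝ) / (2 * W)) ^ k * B.card := by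
              rw [hP, div_pow]
              ring
          _ ≤ _ := mul_le_mul_of_nonneg_right (pow_le_pow_left₀ (by positivity) h2 k) hb0.le
      have h2 : (P / (2 * W) ^ k) ^ (1 - k * ε') ≤
          (((X.card : ℝ) / 2) ^ k * B.card) ^ (1 - k * ε') :=
        Real.rpow_le_rpow (by positivity) h1 (by linarith)
      refine le_trans ?_ h2
      have h3 : (P / (2 * W) ^ k) ^ (1 - k * ε') = P ^ (1 - E) / ((2 * W : ℝ) ^ k) ^ (1 - E) := by
        rw [Real.div_rpow hP0.le (by positivity)]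
      rw [h3]
      have h4 : P ^ (1 - E) = P / P ^ E := by
        rw [Real.rpow_sub hP0, Real.rpow_one]
      rw [h4]
      have h5 : ((2 * W : ℝ) ^ k) ^ (1 - E) ≤ (2 * W : ℝ) ^ k := by
        calc ((2 * W : ℝ) ^ k) ^ (1 - E) ≤ ((2 * W : ℝ) ^ k) ^ (1 : ℝ) :=
              Real.rpow_le_rpow_of_exponent_le h2W (by linarith)
          _ = _ := Real.rpow_one _
      rw [div_div]
      refine div_le_div_of_nonneg_left hP0.le (by positivity) ?_
      exact mul_le_mul hPE h5 (by positivity) hZ0.le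
    have : Nonempty (Fin N) := ⟨⟨0, hN1⟩⟩
    have hex : ∀ x : ℤ, ∃ i : Fin N, x ∈ X → x ∈ V φ M i := by
      intro x
      by_cases hx : x ∈ X
      · obtain ⟨i, -, hi⟩ := mem_biUnion.1 hx
        exact ⟨i, fun _ => hi⟩
      · exact ⟨Classical.arbitrary _, fun h => absurd h hx⟩
    choose idx hidx using hex
    have hgood := goodS k lam m B φ M W (fun i => V_leW φ W M i (hI i)) idx hidx
    have hsum := expS k lam m B φ M hM0 idx hidx
    set Ug := ((((Fintype.piFinset fun _ : Fin k => XX φ M).filter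
        (fun x => Function.Injective (fun j => idx (x j)))) ×ˢ B).image
          (fun s => sm k lam m s.1 s.2)) with hUg
    set μ : ℝ := (Ug.card : ℝ) / M ^ k with hμ
    have hμ0 : 0 ≤ μ := by positivity
    -- the conflicts
    have hWW : (W : ℝ) ^ k * (2 * W) ^ k ≤ 2 ^ k * Z := by
      have e : (W : ℝ) ^ k * (2 * W) ^ k = 2 ^ k * (W : ℝ) ^ (2 * k) := by
        rw [mul_pow, two_mul, pow_add]
        ring
      rw [e]
      exact mul_le_mul_of_nonneg_left hWk (by positivity)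
    have h2k : (2 : ℝ) ^ k ≤ 16 ^ k := pow_le_pow_left₀ (by norm_num) (by norm_num) k
    have h4k : (4 : ℝ) ^ k ≤ 16 ^ k := pow_le_pow_left₀ (by norm_num) (by norm_num) k
    have hk2 : (1 : ℝ) ≤ (k : ℝ) ^ 2 := one_le_pow₀ hkr
    have h16 : (1 : ℝ) ≤ (16 : ℝ) ^ k := one_le_pow₀ (by norm_num)
    have hconf : (k : ℝ) ^ 2 * (W * (X.card : ℝ) ^ (k - 1)) * B.card ≤
        P / (2 * (Z * (2 * W) ^ k)) := by
      have h1 : (X.card : ℝ) ^ (k - 1) ≤ (N * W : ℝ) ^ (k - 1) :=
        pow_le_pow_left₀ (by positivity) hXler _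
      have h2 : (k : ℝ) ^ 2 * (W * (X.card : ℝ) ^ (k - 1)) * B.card ≤
          (k : ℝ) ^ 2 * (W * (N * W : ℝ) ^ (k - 1)) * B.card := by gcongr
      refine h2.trans ?_
      have e1 : (k : ℝ) ^ 2 * (W * (N * W : ℝ) ^ (k - 1)) * B.card =
          (k : ℝ) ^ 2 * (W : ℝ) ^ k * P / N := by
        rw [eq_div_iff hN0.ne', hP]
        obtain ⟨l, rfl⟩ : ∃ l, k = l + 1 := ⟨k - 1, by omega⟩
        simp only [Nat.add_sub_cancel]
        rw [mul_pow]
        ring
      rw [e1, div_le_div_iff₀ hN0 (by positivity)]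
      have h3 : (k : ℝ) ^ 2 * (W : ℝ) ^ k * (2 * (Z * (2 * W) ^ k)) ≤ N := by
        calc (k : ℝ) ^ 2 * (W : ℝ) ^ k * (2 * (Z * (2 * W) ^ k))
            = 2 * (k : ℝ) ^ 2 * Z * ((W : ℝ) ^ k * (2 * W) ^ k) := by ring
          _ ≤ 2 * (k : ℝ) ^ 2 * Z * (2 ^ k * Z) := mul_le_mul_of_nonneg_left hWW (by positivity)
          _ = (2 * (k : ℝ) ^ 2 * 2 ^ k) * Z ^ 2 := by ring
          _ ≤ K * Z ^ 2 := by
              refine mul_le_mul_of_nonneg_right ?_ (by positivity)
              rw [hK]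
              nlinarith
          _ ≤ Z * Z ^ 2 := mul_le_mul_of_nonneg_right hZK (by positivity)
          _ = Z ^ 3 := by ring
          _ ≤ Z ^ 8 := pow_le_pow_right₀ hZ1 (by norm_num)
          _ ≤ N := hZN
      nlinarith
    have hUlow : P / (2 * (Z * (2 * W) ^ k)) ≤ (Ug.card : ℝ) := by
      have h1 : (S.card : ℝ) ≤ (Ug.card : ℝ) +
          (k : ℝ) ^ 2 * (W * (X.card : ℝ) ^ (k - 1)) * B.card := by exact_mod_cast hgood
      have h2 : P / (Z * (2 * W) ^ k) = 2 * (P / (2 * (Z * (2 * W) ^ k))) := by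
        field_simp
      linarith
    have hμlow : P / (2 * 4 ^ k * Z ^ 2) ≤ μ := by
      rw [hμ, le_div_iff₀ (by positivity)]
      refine le_trans ?_ hUlow
      rw [div_mul_eq_mul_div, div_le_div_iff₀ (by positivity) (by positivity)]
      have h1 : M ^ k * (2 * W) ^ k ≤ 4 ^ k * Z := by
        have e : M ^ k * (2 * W) ^ k = 4 ^ k * (W : ℝ) ^ (2 * k) := by
          rw [hM, ← mul_pow, pow_mul, ← mul_pow]
          congr 1
          ring
        rw [e]
        exact mul_le_mul_of_nonneg_left hWk (by positivity)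
      calc P * M ^ k * (2 * (Z * (2 * W) ^ k)) = 2 * P * Z * (M ^ k * (2 * W) ^ k) := by ring
        _ ≤ 2 * P * Z * (4 ^ k * Z) := mul_le_mul_of_nonneg_left h1 (by positivity)
        _ = P * (2 * 4 ^ k * Z ^ 2) := by ring
    have hD : (0 : ℝ) < (k : ℝ) * (N : ℝ) ^ (k - 1) * B.card := by positivity
    have hmc := mc N (fun o : Fin N → Ω => ((sums k lam m B (fun i => φ i (o i))).card : ℝ))
      ((k : ℝ) * (N : ℝ) ^ (k - 1) * B.card) μ hN1 hD hμ0 (fun o i b => bdS k lam m B φ o i b) hsum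
    have hlow : P ^ (1 - ε) ≤ μ / 2 := by
      have h1 : P ^ (1 - ε) = P / P ^ ε := by rw [Real.rpow_sub hP0, Real.rpow_one]
      have h2 : Z ^ 8 ≤ P ^ ε := by
        rw [hZ8]
        exact Real.rpow_le_rpow hN0.le hPN hε.le
      have h3 : 2 * (2 * 4 ^ k * Z ^ 2) ≤ P ^ ε := by
        refine le_trans ?_ h2
        calc 2 * (2 * 4 ^ k * Z ^ 2) = (4 * 4 ^ k) * Z ^ 2 := by ring
          _ ≤ K * Z ^ 2 := by
              refine mul_le_mul_of_nonneg_right ?_ (by positivity)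
              rw [hK]
              nlinarith
          _ ≤ Z * Z ^ 2 := mul_le_mul_of_nonneg_right hZK (by positivity)
          _ = Z ^ 3 := by ring
          _ ≤ Z ^ 8 := pow_le_pow_right₀ hZ1 (by norm_num)
      rw [h1]
      calc P / P ^ ε ≤ P / (2 * (2 * 4 ^ k * Z ^ 2)) :=
            div_le_div_of_nonneg_left hP0.le (by positivity) h3
        _ = (P / (2 * 4 ^ k * Z ^ 2)) / 2 := by
            rw [div_div]
            congr 1
            ring
        _ ≤ μ / 2 := by linarith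
    have hexp : (N : ℝ) ^ (1 - ε) ≤
        μ ^ 2 / (16 * N * ((k : ℝ) * (N : ℝ) ^ (k - 1) * B.card) ^ 2) := by
      have hDP : (k : ℝ) * (N : ℝ) ^ (k - 1) * B.card = k * P / N := by
        rw [eq_div_iff hN0.ne', hP]
        obtain ⟨l, rfl⟩ : ∃ l, k = l + 1 := ⟨k - 1, by omega⟩
        simp only [Nat.add_sub_cancel]
        ring
      have h1 : (N : ℝ) ^ (1 - ε) = N / Z ^ 8 := by
        rw [hZ8, Real.rpow_sub hN0, Real.rpow_one]
      rw [h1, hDP, le_div_iff₀ (by positivity)]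
      have h2 : (P / (2 * 4 ^ k * Z ^ 2)) ^ 2 ≤ μ ^ 2 := pow_le_pow_left₀ (by positivity) hμlow 2
      refine le_trans ?_ h2
      have e1 : (N : ℝ) / Z ^ 8 * (16 * N * (k * P / N) ^ 2) = 16 * k ^ 2 * P ^ 2 / Z ^ 8 := by
        field_simp
      have e2 : (P / (2 * 4 ^ k * Z ^ 2)) ^ 2 = P ^ 2 / (4 * 16 ^ k * Z ^ 4) := by
        have e3 : ((4 : ℝ) ^ k) ^ 2 = 16 ^ k := by
          rw [← pow_mul, mul_comm, pow_mul]
          norm_num
        have e4 : (2 * 4 ^ k * Z ^ 2) ^ 2 = 4 * 16 ^ k * Z ^ 4 := by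
          rw [mul_pow, mul_pow, e3]
          ring
        rw [div_pow, e4]
      rw [e1, e2, div_le_div_iff₀ (by positivity) (by positivity)]
      calc 16 * (k : ℝ) ^ 2 * P ^ 2 * (4 * 16 ^ k * Z ^ 4) = P ^ 2 * (K * Z ^ 4) := by
            rw [hK]; ring
        _ ≤ P ^ 2 * (Z * Z ^ 4) := by gcongr
        _ = P ^ 2 * Z ^ 5 := by ring
        _ ≤ P ^ 2 * Z ^ 8 := by
            refine mul_le_mul_of_nonneg_left ?_ (by positivity)
            exact pow_le_pow_right₀ hZ1 (by norm_num)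
    calc (((univ : Finset (Fin N → Ω)).filter (fun o =>
        ((sums k lam m B (fun i => φ i (o i))).card : ℝ) < P ^ (1 - ε))).card : ℝ)
        ≤ (((univ : Finset (Fin N → Ω)).filter (fun o =>
          ((sums k lam m B (fun i => φ i (o i))).card : ℝ) ≤ μ / 2)).card : ℝ) := by
          refine Nat.cast_le.2 (card_le_card fun o ho => ?_)
          refine mem_filter.2 ⟨mem_univ _, ?_⟩
          exact ((mem_filter.1 ho).2.le).trans hlow
      _ ≤ _ := hmc
      _ ≤ _ := by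
          refine mul_le_mul_of_nonneg_right ?_ hΩ.le
          exact Real.exp_le_exp.2 (neg_le_neg hexp)

end Run7.h183.Mult
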