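import Pool.Agent.W219.SP.Cor
import Pool.Agent.Run7.h183.SmoothD

/-!
Random multiplicative perturbations of a finite set of integers: deterministic part.
-/

set_option autoImplicit false

namespace Run7.h183.Mult

open Finset
open scoped Pointwise

/-- the sums `lam 0 * x 0 ^ m 0 + ... + b` -/
def sm (k : ℕ) (lam : Fin k → ℤ) (m : Fin k → ℕ) (x : Fin k → ℤ) (b : ℤ) : ℤ :=
  ∑ j, lam j * (x j) ^ (m j) + b

theorem pow_eq_abs {x y : ℤ} {m : ℕ} (hm : 1 ≤ m) (h : x ^ m = y ^ m) : |x| = |y| := by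
  have h1 : |x| ^ m = |y| ^ m := by rw [← abs_pow, ← abs_pow, h]
  exact (pow_left_inj₀ (abs_nonneg x) (abs_nonneg y) (by omega)).1 h1

/-- numbers `x t ^ i` with the same power are equal -/
theorem fib_inj {t : ℚ} (h0 : t ≠ 0) (h1 : t ≠ 1) (h2 : t ≠ -1) {x y z : ℤ} (hx : x ≠ 0)
    {i j : ℤ} (hy : (y : ℚ) = x * t ^ i) (hz : (z : ℚ) = x * t ^ j) {m : ℕ} (hm : 1 ≤ m)
    (h : y ^ m = z ^ m) : y = z := by
  have hxq : (x : ℚ) ≠ 0 := by exact_mod_cast hx
  have h3 : |(y : ℚ)| = |(z : ℚ)| := by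
    have := pow_eq_abs hm h
    exact_mod_cast this
  rw [hy, hz, abs_mul, abs_mul, abs_zpow, abs_zpow] at h3
  have h4 : |t| ^ i = |t| ^ j := mul_left_cancel₀ (abs_ne_zero.2 hxq) h3
  have h5 : |t| ≠ 1 := by
    intro h6
    rcases (abs_eq (zero_le_one (α := ℚ))).1 h6 with h | h
    · exact h1 h
    · exact h2 h
  have h6 : i = j := zpow_right_injective₀ (abs_pos.2 h0) h5 h4
  have h7 : (y : ℚ) = z := by rw [hy, hz, h6]
  exact_mod_cast h7

open Classical in
theorem det (ε : ℝ) (hε : 0 < ε) (hε1 : ε ≤ 1) (t : ℚ) (h0 : t ≠ 0) (h1 : t ≠ 1)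
    (h2 : t ≠ -1) (X : Finset ℤ) (hX : 2 ≤ X.card) (hX0 : (0 : ℤ) ∉ X)
    (hfib : ∀ x ∈ X, 4 / ε * Real.exp (6 / ε) * Real.log (2 * X.card) ≤
      ((X.filter fun y : ℤ => ∃ i : ℤ, (y : ℚ) = x * t ^ i).card : ℝ)) (k : ℕ) :
    ∀ (lam : Fin k → ℤ) (m : Fin k → ℕ), (∀ j, lam j ≠ 0) → (∀ j, 1 ≤ m j) →
    ∀ B : Finset ℤ, B.Nonempty →
    (((X.card : ℝ) / 2) ^ k * B.card) ^ ((1 - ε) ^ k) ≤
      ((((Fintype.piFinset fun _ : Fin k => X) ×ˢ B).image
        (fun s => sm k lam m s.1 s.2)).card : ℝ) := by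
  classical
  induction k with
  | zero =>
    intro lam m _ _ B hB
    have h3 : B ⊆ ((Fintype.piFinset fun _ : Fin 0 => X) ×ˢ B).image
        (fun s => sm 0 lam m s.1 s.2) := by
      intro b hb
      refine mem_image.2 ⟨(fun j => j.elim0, b), mem_product.2 ⟨?_, hb⟩, ?_⟩
      · rw [Fintype.mem_piFinset]
        intro j
        exact j.elim0
      · simp [sm]
    simp only [pow_zero, one_mul, Real.rpow_one]
    exact_mod_cast card_le_card h3
  | succ k ih =>
    intro lam m hl hm B hB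
    have hXr : (2 : ℝ) ≤ X.card := by exact_mod_cast hX
    have hX0' : (0 : ℝ) < X.card := by linarith
    have hXne : X.Nonempty := card_pos.1 (by omega)
    have hB1 : (1 : ℝ) ≤ B.card := by exact_mod_cast hB.card_pos
    set lam' : Fin k → ℤ := fun j => lam j.succ with hlam'
    set m' : Fin k → ℕ := fun j => m j.succ with hm'
    set B' := ((Fintype.piFinset fun _ : Fin k => X) ×ˢ B).image
        (fun s => sm k lam' m' s.1 s.2) with hB'
    have hih := ih lam' m' (fun j => hl _) (fun j => hm _) B hB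
    rw [← hB'] at hih
    set Y : Finset ℤ := X.image (fun x => lam 0 * x ^ m 0) with hY
    have hYne : Y.Nonempty := hXne.image _
    have hBne : B'.Nonempty := by
      obtain ⟨b, hb⟩ := hB
      obtain ⟨x, hx⟩ := hXne
      exact ⟨_, mem_image_of_mem _ (mem_product.2 (show ((fun _ : Fin k => x), b).1 ∈
        (Fintype.piFinset fun _ : Fin k => X) ∧ ((fun _ : Fin k => x), b).2 ∈ B from
          ⟨Fintype.mem_piFinset.2 fun _ => hx, hb⟩))⟩
    -- the number of the powers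
    have hY2 : (X.card : ℝ) / 2 ≤ Y.card := by
      have h3 : X.card ≤ 2 * Y.card := by
        refine card_le_mul_card_image _ _ ?_
        intro y hy
        obtain ⟨x₀, hx₀, hxy⟩ := mem_image.1 hy
        have h4 : X.filter (fun x => lam 0 * x ^ m 0 = y) ⊆ {x₀, -x₀} := by
          intro x hx
          have h5 := (mem_filter.1 hx).2
          rw [← hxy] at h5
          have h6 : x ^ m 0 = x₀ ^ m 0 := mul_left_cancel₀ (hl 0) h5
          have h7 := pow_eq_abs (hm 0) h6
          rw [mem_insert, mem_singleton]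
          exact abs_eq_abs.1 h7
        exact (card_le_card h4).trans card_le_two
      have h4 : (X.card : ℝ) ≤ 2 * Y.card := by exact_mod_cast h3
      linarith
    have hYX : Y.card ≤ X.card := card_image_le
    have hY1 : (1 : ℝ) ≤ Y.card := by exact_mod_cast hYne.card_pos
    -- the fibres of `Y`
    have htm0 : t ^ m 0 ≠ 0 := pow_ne_zero _ h0
    have htabs : |t| ≠ 1 := by
      intro h6
      rcases (abs_eq (zero_le_one (α := ℚ))).1 h6 with h | h
      · exact h1 h
      · exact h2 h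
    have htm : |t ^ m 0| ≠ 1 := by
      rw [abs_pow]
      intro h6
      have h7 : |t| ^ m 0 = 1 ^ m 0 := by rw [h6, one_pow]
      exact htabs ((pow_left_inj₀ (abs_nonneg t) zero_le_one (by have := hm 0; omega)).1 h7)
    have htm1 : t ^ m 0 ≠ 1 := fun h => htm (by rw [h, abs_one])
    have htm2 : t ^ m 0 ≠ -1 := fun h => htm (by rw [h, abs_neg, abs_one])
    have hfibY : ∀ y ∈ Y, 4 / ε * Real.exp (6 / ε) * Real.log (2 * Y.card) ≤
        ((Y.filter fun z : ℤ => ∃ i : ℤ, (z : ℚ) = y * (t ^ m 0) ^ i).card : ℝ) := by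
      intro y hy
      obtain ⟨x, hx, hxy⟩ := mem_image.1 hy
      have hx0 : x ≠ 0 := fun h => hX0 (h ▸ hx)
      have h3 : 4 / ε * Real.exp (6 / ε) * Real.log (2 * Y.card) ≤
          4 / ε * Real.exp (6 / ε) * Real.log (2 * X.card) := by
        refine mul_le_mul_of_nonneg_left (Real.log_le_log (by linarith) ?_) (by positivity)
        have : (Y.card : ℝ) ≤ X.card := by exact_mod_cast hYX
        linarith
      refine h3.trans ((hfib x hx).trans ?_)
      have h4 : (X.filter fun z : ℤ => ∃ i : ℤ, (z : ℚ) = x * t ^ i).card ≤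
          (Y.filter fun z : ℤ => ∃ i : ℤ, (z : ℚ) = y * (t ^ m 0) ^ i).card := by
        refine card_le_card_of_injOn (fun z => lam 0 * z ^ m 0) ?_ ?_
        · intro z hz
          obtain ⟨hzX, i, hi⟩ := mem_filter.1 (mem_coe.1 hz)
          refine mem_coe.2 (mem_filter.2 ⟨mem_image_of_mem _ hzX, i, ?_⟩)
          rw [← hxy]
          push_cast
          rw [hi, mul_pow, ← mul_assoc, ← zpow_natCast (t ^ i), ← zpow_mul, ← zpow_natCast t,
            ← zpow_mul, mul_comm i]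
        · intro z hz z' hz' hzz
          obtain ⟨-, i, hi⟩ := mem_filter.1 (mem_coe.1 hz)
          obtain ⟨-, i', hi'⟩ := mem_filter.1 (mem_coe.1 hz')
          have h5 : z ^ m 0 = z' ^ m 0 := mul_left_cancel₀ (hl 0) hzz
          exact fib_inj h0 h1 h2 hx0 hi hi' (hm 0) h5
      exact_mod_cast h4
    have hmain := Pool.Agent.W219.SP.main_rat ε hε hε1 (t ^ m 0) htm0 htm1 htm2 Y B' hYne hBne hfibY
    -- the sumset
    have hsub : Y + B' ⊆ ((Fintype.piFinset fun _ : Fin (k + 1) => X) ×ˢ B).image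
        (fun s => sm (k + 1) lam m s.1 s.2) := by
      intro u hu
      obtain ⟨y, hy, b', hb', rfl⟩ := mem_add.1 hu
      obtain ⟨x, hx, rfl⟩ := mem_image.1 hy
      obtain ⟨s, hs, rfl⟩ := mem_image.1 hb'
      obtain ⟨hs1, hs2⟩ := mem_product.1 hs
      refine mem_image.2 ⟨(Fin.cons x s.1, s.2), mem_product.2 ⟨?_, hs2⟩, ?_⟩
      · rw [Fintype.mem_piFinset]
        intro j
        refine Fin.cases ?_ (fun j => ?_) j
        · simpa using hx
        · simpa using Fintype.mem_piFinset.1 hs1 j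
      · simp only [sm, Fin.sum_univ_succ, Fin.cons_zero, Fin.cons_succ, hlam', hm']
        ring
    have hcard : ((Y + B').card : ℝ) ≤ ((((Fintype.piFinset fun _ : Fin (k + 1) => X) ×ˢ B).image
        (fun s => sm (k + 1) lam m s.1 s.2)).card : ℝ) := by exact_mod_cast card_le_card hsub
    refine le_trans ?_ (hmain.trans hcard)
    have he0 : 0 ≤ 1 - ε := by linarith
    have he1 : (1 - ε) ^ k ≤ 1 := pow_le_one₀ he0 (by linarith)
    have hX2 : 1 ≤ (X.card : ℝ) / 2 := by linarith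
    have hPB : 0 ≤ ((X.card : ℝ) / 2) ^ k * B.card := by positivity
    rw [pow_succ (1 - ε) k, Real.rpow_mul (by positivity)]
    refine Real.rpow_le_rpow (by positivity) ?_ he0
    calc (((X.card : ℝ) / 2) ^ (k + 1) * B.card) ^ ((1 - ε) ^ k)
        = ((X.card : ℝ) / 2) ^ ((1 - ε) ^ k) *
          (((X.card : ℝ) / 2) ^ k * B.card) ^ ((1 - ε) ^ k) := by
          rw [← Real.mul_rpow (by positivity) hPB]
          congr 1
          ring
      _ ≤ (X.card : ℝ) / 2 * B'.card := by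
          refine mul_le_mul ?_ hih (by positivity) (by positivity)
          calc ((X.card : ℝ) / 2) ^ ((1 - ε) ^ k) ≤ ((X.card : ℝ) / 2) ^ (1 : ℝ) :=
                Real.rpow_le_rpow_of_exponent_le hX2 he1
            _ = _ := Real.rpow_one _
      _ ≤ (Y.card : ℝ) * B'.card := mul_le_mul_of_nonneg_right hY2 (by positivity)

open Classical in
/-- the deterministic estimate with exponent `1 - k ε` -/
theorem det' (ε : ℝ) (hε : 0 < ε) (hε1 : ε ≤ 1) (t : ℚ) (h0 : t ≠ 0) (h1 : t ≠ 1)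
    (h2 : t ≠ -1) (X : Finset ℤ) (hX : 2 ≤ X.card) (hX0 : (0 : ℤ) ∉ X)
    (hfib : ∀ x ∈ X, 4 / ε * Real.exp (6 / ε) * Real.log (2 * X.card) ≤
      ((X.filter fun y : ℤ => ∃ i : ℤ, (y : ℚ) = x * t ^ i).card : ℝ)) (k : ℕ)
    (lam : Fin k → ℤ) (m : Fin k → ℕ) (hl : ∀ j, lam j ≠ 0) (hm : ∀ j, 1 ≤ m j)
    (B : Finset ℤ) (hB : B.Nonempty) :
    (((X.card : ℝ) / 2) ^ k * B.card) ^ (1 - k * ε) ≤
      ((((Fintype.piFinset fun _ : Fin k => X) ×ˢ B).image
        (fun s => sm k lam m s.1 s.2)).card : ℝ) := by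
  refine le_trans ?_ (det ε hε hε1 t h0 h1 h2 X hX hX0 hfib k lam m hl hm B hB)
  have hXr : (2 : ℝ) ≤ X.card := by exact_mod_cast hX
  have hB1 : (1 : ℝ) ≤ B.card := by exact_mod_cast hB.card_pos
  refine Real.rpow_le_rpow_of_exponent_le ?_ ?_
  · have h3 : (1 : ℝ) ≤ ((X.card : ℝ) / 2) ^ k := one_le_pow₀ (by linarith)
    nlinarith
  · have h3 := one_add_mul_le_pow (show (-2 : ℝ) ≤ -ε by linarith) k
    have h4 : (1 : ℝ) + -ε = 1 - ε := by ring
    rw [h4] at h3
    linarith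

end Run7.h183.Mult
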