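import Pool.Agent.Run7.h183.MultA

/-!
Random multiplicative perturbations of a finite set of integers: counting.
-/

set_option autoImplicit false

namespace Run7.h183.Mult

open Finset Run7.h183.Smooth

variable {Ω : Type} [Fintype Ω] [Nonempty Ω]

theorem V_cardW {N : ℕ} (φ : Fin N → Ω → ℤ) (W : ℕ) (hW : 1 ≤ W) (δ : ℝ) (hδ : 0 < δ) (i : Fin N)
    (hI : (univ.image (φ i)).card ≤ W)
    (hat : ∀ v, ((univ.filter (fun o : Ω => φ i o = v)).card : ℝ) ≤ δ * Fintype.card Ω) :
    1 ≤ 2 * δ * ((V φ (2 * W) i).card : ℝ) := by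
  classical
  have hc : (0 : ℝ) < Fintype.card Ω := by exact_mod_cast Fintype.card_pos
  have hWr : (1 : ℝ) ≤ W := by exact_mod_cast hW
  set I := univ.image (φ i) with hIdef
  have h1 : (Fintype.card Ω : ℝ) = ∑ v ∈ I, ((univ.filter (fun o : Ω => φ i o = v)).card : ℝ) := by
    have := card_eq_sum_card_image (φ i) (univ : Finset Ω)
    rw [card_univ] at this
    exact_mod_cast this
  have hIc : (I.card : ℝ) ≤ W := by exact_mod_cast hI
  have h2 : ∑ v ∈ I, ((univ.filter (fun o : Ω => φ i o = v)).card : ℝ) =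
      ∑ v ∈ V φ (2 * W) i, ((univ.filter (fun o : Ω => φ i o = v)).card : ℝ) +
      ∑ v ∈ I.filter (fun v => ¬ (Fintype.card Ω : ℝ) ≤
        (2 * W) * ((univ.filter (fun o : Ω => φ i o = v)).card : ℝ)),
        ((univ.filter (fun o : Ω => φ i o = v)).card : ℝ) := by
    unfold V
    rw [sum_filter_add_sum_filter_not]
  have h3 : ∑ v ∈ V φ (2 * W) i, ((univ.filter (fun o : Ω => φ i o = v)).card : ℝ) ≤
      (V φ (2 * W) i).card * (δ * Fintype.card Ω) := by
    refine (sum_le_sum fun v _ => hat v).trans ?_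
    rw [sum_const, nsmul_eq_mul]
  have h4 : ∑ v ∈ I.filter (fun v => ¬ (Fintype.card Ω : ℝ) ≤
        (2 * W) * ((univ.filter (fun o : Ω => φ i o = v)).card : ℝ)),
        ((univ.filter (fun o : Ω => φ i o = v)).card : ℝ) ≤ Fintype.card Ω / 2 := by
    have h5 : ∀ v ∈ I.filter (fun v => ¬ (Fintype.card Ω : ℝ) ≤
        (2 * W) * ((univ.filter (fun o : Ω => φ i o = v)).card : ℝ)),
        ((univ.filter (fun o : Ω => φ i o = v)).card : ℝ) ≤
          Fintype.card Ω / (2 * W) := by
      intro v hv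
      have := (mem_filter.1 hv).2
      rw [not_le] at this
      rw [le_div_iff₀ (by linarith)]
      linarith
    refine (sum_le_sum h5).trans ?_
    rw [sum_const, nsmul_eq_mul]
    have h6 : ((I.filter (fun v => ¬ (Fintype.card Ω : ℝ) ≤
        (2 * W) * ((univ.filter (fun o : Ω => φ i o = v)).card : ℝ))).card : ℝ) ≤ W :=
      le_trans (by exact_mod_cast card_filter_le _ _) hIc
    calc _ ≤ (W : ℝ) * (Fintype.card Ω / (2 * W)) :=
          mul_le_mul_of_nonneg_right h6 (by positivity)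
      _ = Fintype.card Ω / 2 := by
          have : (W : ℝ) ≠ 0 := by linarith
          field_simp
  have h7 : (Fintype.card Ω : ℝ) * 1 ≤
      Fintype.card Ω * (2 * δ * ((V φ (2 * W) i).card : ℝ)) := by
    nlinarith
  exact le_of_mul_le_mul_left h7 hc

theorem V_leW {N : ℕ} (φ : Fin N → Ω → ℤ) (W : ℕ) (M : ℝ) (i : Fin N)
    (hI : (univ.image (φ i)).card ≤ W) : (V φ M i).card ≤ W := by
  unfold V
  exact (card_filter_le _ _).trans hI

theorem XX_cardW {N : ℕ} (φ : Fin N → Ω → ℤ) (W : ℕ) (M : ℝ)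
    (hn : ∀ i, 1 ≤ (V φ M i).card)
    (hmul : ∀ x : ℤ, ((univ : Finset (Fin N)).filter (fun i => x ∈ V φ M i)).card ≤ W) :
    N ≤ W * (XX φ M).card := by
  classical
  choose v hv using fun i => card_pos.1 (hn i)
  have hmap : ∀ i ∈ (univ : Finset (Fin N)), v i ∈ XX φ M := fun i _ =>
    mem_biUnion.2 ⟨i, mem_univ _, hv i⟩
  have hfib : ∀ x ∈ XX φ M, ((univ : Finset (Fin N)).filter (fun i => v i = x)).card ≤ W := by
    intro x _
    refine (card_le_card ?_).trans (hmul x)
    intro i hi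
    refine mem_filter.2 ⟨mem_univ _, ?_⟩
    rw [← (mem_filter.1 hi).2]
    exact hv i
  have h := card_le_mul_card_image_of_maps_to hmap W hfib
  rwa [card_univ, Fintype.card_fin] at h

theorem XX_leW {N : ℕ} (φ : Fin N → Ω → ℤ) (W : ℕ) (M : ℝ)
    (hI : ∀ i, (univ.image (φ i)).card ≤ W) : (XX φ M).card ≤ N * W := by
  unfold XX
  refine card_biUnion_le.trans ((sum_le_sum fun i _ => V_leW φ W M i (hI i)).trans ?_)
  rw [sum_const, smul_eq_mul, card_univ, Fintype.card_fin]

/-- the sums of `k` terms of the random set and an element of `B` -/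
def sums (k : ℕ) {N : ℕ} (lam : Fin k → ℤ) (m : Fin k → ℕ) (B : Finset ℤ) (y : Fin N → ℤ) :
    Finset ℤ :=
  ((univ : Finset (Fin k → Fin N)) ×ˢ B).image (fun s => sm k lam m (fun j => y (s.1 j)) s.2)

theorem sums_le (k : ℕ) {N : ℕ} (lam : Fin k → ℤ) (m : Fin k → ℕ) (B : Finset ℤ)
    (y z : Fin N → ℤ) (i : Fin N) (h : ∀ i', i' ≠ i → y i' = z i') :
    (sums k lam m B y).card ≤ (sums k lam m B z).card + k * N ^ (k - 1) * B.card := by
  classical
  have h1 : sums k lam m B y ⊆ sums k lam m B z ∪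
      (((univ : Finset (Fin k → Fin N)).filter (fun ι => ∃ l, ι l = i)) ×ˢ B).image
        (fun s => sm k lam m (fun j => y (s.1 j)) s.2) := by
    intro u hu
    obtain ⟨s, hs, rfl⟩ := mem_image.1 hu
    obtain ⟨hs1, hs2⟩ := mem_product.1 hs
    by_cases hi : ∃ l, s.1 l = i
    · exact mem_union_right _ (mem_image.2 ⟨s, mem_product.2 ⟨mem_filter.2 ⟨mem_univ _, hi⟩, hs2⟩,
        rfl⟩)
    · refine mem_union_left _ (mem_image.2 ⟨s, hs, ?_⟩)
      push Not at hi
      have e : (fun j => z (s.1 j)) = (fun j => y (s.1 j)) := by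
        funext j
        exact (h _ (hi j)).symm
      show sm k lam m (fun j => z (s.1 j)) s.2 = sm k lam m (fun j => y (s.1 j)) s.2
      rw [e]
  refine (card_le_card h1).trans ((card_union_le _ _).trans (Nat.add_le_add_left ?_ _))
  refine card_image_le.trans ?_
  rw [card_product]
  exact Nat.mul_le_mul_right _ (Pool.Agent.W52.RS.hits_card i)

theorem bdS (k : ℕ) {N : ℕ} (lam : Fin k → ℤ) (m : Fin k → ℕ) (B : Finset ℤ) {Ω : Type}
    (φ : Fin N → Ω → ℤ) (o : Fin N → Ω) (i : Fin N) (a : Ω) :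
    |((sums k lam m B (fun i' => φ i' (Function.update o i a i'))).card : ℝ) -
      ((sums k lam m B (fun i' => φ i' (o i'))).card : ℝ)| ≤
        (k : ℝ) * (N : ℝ) ^ (k - 1) * B.card := by
  have h : ∀ i', i' ≠ i → φ i' (Function.update o i a i') = φ i' (o i') := by
    intro i' hi
    rw [Function.update_of_ne hi]
  have h1 := sums_le k lam m B (fun i' => φ i' (Function.update o i a i')) (fun i' => φ i' (o i'))
    i h
  have h2 := sums_le k lam m B (fun i' => φ i' (o i')) (fun i' => φ i' (Function.update o i a i'))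
    i (fun i' hi => (h i' hi).symm)
  have h1' : ((sums k lam m B (fun i' => φ i' (Function.update o i a i'))).card : ℝ) ≤
    ((sums k lam m B (fun i' => φ i' (o i'))).card : ℝ) + (k : ℝ) * (N : ℝ) ^ (k - 1) * B.card := by
    exact_mod_cast h1
  have h2' : ((sums k lam m B (fun i' => φ i' (o i'))).card : ℝ) ≤
    ((sums k lam m B (fun i' => φ i' (Function.update o i a i'))).card : ℝ) +
      (k : ℝ) * (N : ℝ) ^ (k - 1) * B.card := by
    exact_mod_cast h2
  rw [abs_le]
  constructor <;> linarith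

theorem card_le_sums (k : ℕ) {N : ℕ} (hN : 1 ≤ N) (lam : Fin k → ℤ) (m : Fin k → ℕ)
    (B : Finset ℤ) (y : Fin N → ℤ) : B.card ≤ (sums k lam m B y).card := by
  classical
  refine card_le_card_of_injOn (fun b => sm k lam m (fun _ => y ⟨0, hN⟩) b) ?_ ?_
  · intro b hb
    exact mem_coe.2 (mem_image.2 ⟨(fun _ => ⟨0, hN⟩, b), mem_product.2 ⟨mem_univ _, hb⟩, rfl⟩)
  · intro b _ b' _ h
    simp only [sm] at h
    exact add_left_cancel h

/-- representations with different indices -/
theorem goodS (k : ℕ) {N : ℕ} {Ω : Type} [Fintype Ω] (lam : Fin k → ℤ) (m : Fin k → ℕ)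
    (B : Finset ℤ) (φ : Fin N → Ω → ℤ) (M : ℝ) (W : ℕ) (hV : ∀ i, (V φ M i).card ≤ W)
    (idx : ℤ → Fin N) (hidx : ∀ x ∈ XX φ M, x ∈ V φ M (idx x)) :
    (((Fintype.piFinset fun _ : Fin k => XX φ M) ×ˢ B).image
        (fun s => sm k lam m s.1 s.2)).card ≤
      ((((Fintype.piFinset fun _ : Fin k => XX φ M).filter
        (fun x => Function.Injective (fun j => idx (x j)))) ×ˢ B).image
          (fun s => sm k lam m s.1 s.2)).card +
        k ^ 2 * (W * (XX φ M).card ^ (k - 1)) * B.card := by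
  classical
  set X := XX φ M with hX
  set P := Fintype.piFinset fun _ : Fin k => X with hP
  have h2 : (P ×ˢ B).image (fun s => sm k lam m s.1 s.2) ⊆
      ((P.filter (fun x => Function.Injective (fun j => idx (x j)))) ×ˢ B).image
        (fun s => sm k lam m s.1 s.2) ∪
      ((P.filter (fun x => ¬ Function.Injective (fun j => idx (x j)))) ×ˢ B).image
        (fun s => sm k lam m s.1 s.2) := by
    rw [← image_union, ← union_product, filter_union_filter_not_eq]
  have h3 : (P.filter (fun x => ¬ Function.Injective (fun j => idx (x j)))).card ≤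
      k ^ 2 * (W * X.card ^ (k - 1)) := by
    have h4 : P.filter (fun x => ¬ Function.Injective (fun j => idx (x j))) ⊆
        ((univ : Finset (Fin k × Fin k)).filter (fun q => q.1 ≠ q.2)).biUnion
          (fun q => P.filter (fun x => x q.2 ∈ V φ M (idx (x q.1)))) := by
      intro x hx
      obtain ⟨hxP, hx2⟩ := mem_filter.1 hx
      rw [Function.Injective] at hx2
      push Not at hx2
      obtain ⟨j, l, hjl, hne⟩ := hx2
      refine mem_biUnion.2 ⟨(j, l), mem_filter.2 ⟨mem_univ _, hne⟩, mem_filter.2 ⟨hxP, ?_⟩⟩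
      show x l ∈ V φ M (idx (x j))
      have e : idx (x j) = idx (x l) := hjl
      rw [e]
      exact hidx _ (Fintype.mem_piFinset.1 hxP l)
    refine (card_le_card h4).trans (card_biUnion_le.trans ?_)
    have h5 : ∀ q ∈ (univ : Finset (Fin k × Fin k)).filter (fun q => q.1 ≠ q.2),
        (P.filter (fun x => x q.2 ∈ V φ M (idx (x q.1)))).card ≤ W * X.card ^ (k - 1) := by
      intro q hq
      exact conflict k X (fun x => V φ M (idx x)) W (fun x _ => hV _) q.1 q.2 (mem_filter.1 hq).2
    refine (sum_le_sum h5).trans ?_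
    rw [sum_const, smul_eq_mul]
    refine Nat.mul_le_mul_right _ ((card_filter_le _ _).trans ?_)
    rw [card_univ, Fintype.card_prod, Fintype.card_fin, sq]
  calc ((P ×ˢ B).image (fun s => sm k lam m s.1 s.2)).card ≤ _ := card_le_card h2
    _ ≤ _ := card_union_le _ _
    _ ≤ _ := by
        refine Nat.add_le_add_left (card_image_le.trans ?_) _
        rw [card_product]
        exact Nat.mul_le_mul_right _ h3

/-- the expected number of sums -/
theorem expS (k : ℕ) {N : ℕ} (lam : Fin k → ℤ) (m : Fin k → ℕ)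
    (B : Finset ℤ) (φ : Fin N → Ω → ℤ) (M : ℝ) (hM : 0 < M)
    (idx : ℤ → Fin N) (hidx : ∀ x ∈ XX φ M, x ∈ V φ M (idx x)) :
    (((((Fintype.piFinset fun _ : Fin k => XX φ M).filter
        (fun x => Function.Injective (fun j => idx (x j)))) ×ˢ B).image
          (fun s => sm k lam m s.1 s.2)).card : ℝ) / M ^ k * (Fintype.card Ω : ℝ) ^ N ≤
      ∑ o : Fin N → Ω, ((sums k lam m B (fun i => φ i (o i))).card : ℝ) := by
  classical
  set Ug := ((((Fintype.piFinset fun _ : Fin k => XX φ M).filter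
        (fun x => Function.Injective (fun j => idx (x j)))) ×ˢ B).image
          (fun s => sm k lam m s.1 s.2)) with hUg
  have h1 := sum_ge N (fun o : Fin N → Ω => sums k lam m B (fun i => φ i (o i))) Ug
    ((Fintype.card Ω : ℝ) ^ N / M ^ k) (by
      intro u hu
      obtain ⟨s, hs, rfl⟩ := mem_image.1 hu
      obtain ⟨hs1, hs2⟩ := mem_product.1 hs
      obtain ⟨hxP, hxi⟩ := mem_filter.1 hs1
      have h2 := prob_ge (Ω := Ω) N φ (fun j => idx (s.1 j)) hxi s.1 M hM (fun j =>
        V_prob φ M _ (hidx _ (Fintype.mem_piFinset.1 hxP j)))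
      rw [Fintype.card_fin] at h2
      refine h2.trans ?_
      refine Nat.cast_le.2 (card_le_card fun o ho => ?_)
      simp only [mem_filter] at ho
      have ho' := ho.2
      refine mem_filter.2 ⟨mem_univ _, mem_image.2 ⟨(fun j => idx (s.1 j), s.2),
        mem_product.2 ⟨mem_univ _, hs2⟩, ?_⟩⟩
      have e : (fun j => φ (idx (s.1 j)) (o (idx (s.1 j)))) = s.1 := by
        funext j
        exact ho' j
      show sm k lam m (fun j => φ (idx (s.1 j)) (o (idx (s.1 j)))) s.2 = sm k lam m s.1 s.2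
      rw [e])
  calc (Ug.card : ℝ) / M ^ k * (Fintype.card Ω : ℝ) ^ N
      = (Ug.card : ℝ) * ((Fintype.card Ω : ℝ) ^ N / M ^ k) := by ring
    _ ≤ _ := h1

end Run7.h183.Mult
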