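import Pool.Agent.R849.SV.Arb
import Pool.Agent.W366.RS.Mc
import Pool.Agent.W52.RS.BDSB
import Pool.Agent.W346.RS.C123

/-!
Random additive perturbations of a finite set of integers: general counting lemmas.
-/

set_option autoImplicit false

namespace Run7.h183.Smooth

open Finset Pool.Agent.W250.RS

/-- bounded differences, on all tuples -/
theorem mc {Ω : Type} [Fintype Ω] [Nonempty Ω] (N : ℕ) (F : (Fin N → Ω) → ℝ) (D μ : ℝ)
    (hN : 1 ≤ N) (hD : 0 < D) (hμ : 0 ≤ μ)
    (hF : ∀ f : Fin N → Ω, ∀ i, ∀ a : Ω, |F (Function.update f i a) - F f| ≤ D)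
    (hs : μ * (Fintype.card Ω : ℝ) ^ N ≤ ∑ f, F f) :
    (((univ : Finset (Fin N → Ω)).filter (fun f => F f ≤ μ / 2)).card : ℝ) ≤
      Real.exp (-(μ ^ 2 / (16 * N * D ^ 2))) * (Fintype.card Ω : ℝ) ^ N := by
  classical
  have hu : tup (univ : Finset Ω) N = univ := by
    unfold tup
    rw [Fintype.piFinset_univ]
  have h := Pool.Agent.W366.RS.s_mc Ω (univ : Finset Ω) univ_nonempty N F D μ (μ / 2) hN hD
    (by positivity) (fun f _ i a _ => hF f i a) (by rw [hu, card_univ]; exact hs)
  rw [hu, card_univ] at h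
  have e1 : μ - μ / 2 = μ / 2 := by ring
  have e2 : (μ / 2) ^ 2 / (4 * N * D ^ 2) = μ ^ 2 / (16 * N * D ^ 2) := by
    have : (0 : ℝ) < N := by exact_mod_cast hN
    field_simp
    ring
  rw [e1, e2] at h
  exact h

/-- double counting -/
theorem sum_ge {Ω β : Type} [Fintype Ω] [DecidableEq β] (N : ℕ) (G : (Fin N → Ω) → Finset β)
    (U : Finset β) (ν : ℝ)
    (hU : ∀ u ∈ U, ν ≤ (((univ : Finset (Fin N → Ω)).filter (fun f => u ∈ G f)).card : ℝ)) :
    (U.card : ℝ) * ν ≤ ∑ f, ((G f).card : ℝ) := by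
  classical
  calc (U.card : ℝ) * ν = ∑ u ∈ U, ν := by rw [sum_const, nsmul_eq_mul]
    _ ≤ ∑ u ∈ U, (((univ : Finset (Fin N → Ω)).filter (fun f => u ∈ G f)).card : ℝ) :=
        sum_le_sum hU
    _ = ∑ u ∈ U, ∑ f : Fin N → Ω, (if u ∈ G f then (1 : ℝ) else 0) := by
        refine sum_congr rfl fun u _ => ?_
        rw [sum_ite, sum_const_zero, add_zero, sum_const, nsmul_eq_mul, mul_one]
    _ = ∑ f : Fin N → Ω, ∑ u ∈ U, (if u ∈ G f then (1 : ℝ) else 0) := sum_comm
    _ = ∑ f : Fin N → Ω, ((U.filter (fun u => u ∈ G f)).card : ℝ) := by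
        refine sum_congr rfl fun f _ => ?_
        rw [sum_ite, sum_const_zero, add_zero, sum_const, nsmul_eq_mul, mul_one]
    _ ≤ ∑ f, ((G f).card : ℝ) := by
        refine sum_le_sum fun f _ => ?_
        exact_mod_cast card_le_card fun u hu => (mem_filter.1 hu).2

/-- probability that independent variables take prescribed values -/
theorem prob_ge {Ω κ γ : Type} [Fintype Ω] [Nonempty Ω] [Fintype κ] [DecidableEq κ] (N : ℕ)
    (φ : Fin N → Ω → γ) [DecidableEq γ] (e : κ → Fin N) (he : Function.Injective e) (x : κ → γ)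
    (M : ℝ) (hM : 0 < M)
    (hx : ∀ j, (Fintype.card Ω : ℝ) ≤ M * ((univ.filter (fun o : Ω => φ (e j) o = x j)).card : ℝ)) :
    (Fintype.card Ω : ℝ) ^ N / M ^ (Fintype.card κ) ≤
      (((univ : Finset (Fin N → Ω)).filter (fun f => ∀ j, φ (e j) (f (e j)) = x j)).card : ℝ) := by
  classical
  set H : Finset (κ → Ω) := Fintype.piFinset fun j => univ.filter (fun o : Ω => φ (e j) o = x j)
    with hH
  have hu : tup (univ : Finset Ω) N = univ := by
    unfold tup
    rw [Fintype.piFinset_univ]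
  have h := Pool.Agent.W346.RS.count_restrict (univ : Finset Ω) N e he H
    (fun h _ j => mem_univ _)
  rw [hu, card_univ] at h
  have h1 : (univ : Finset (Fin N → Ω)).filter (fun f => f ∘ e ∈ H) =
      (univ : Finset (Fin N → Ω)).filter (fun f => ∀ j, φ (e j) (f (e j)) = x j) := by
    refine filter_congr fun f _ => ?_
    rw [hH, Fintype.mem_piFinset]
    simp
  rw [h1] at h
  have hc : (0 : ℝ) < Fintype.card Ω := by exact_mod_cast Fintype.card_pos
  have h2 : ((Fintype.card Ω : ℝ) / M) ^ (Fintype.card κ) ≤ (H.card : ℝ) := by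
    rw [hH, Fintype.card_piFinset]
    push_cast
    calc ((Fintype.card Ω : ℝ) / M) ^ (Fintype.card κ)
        = ∏ _j : κ, ((Fintype.card Ω : ℝ) / M) := by rw [prod_const, card_univ]
      _ ≤ ∏ j : κ, ((univ.filter (fun o : Ω => φ (e j) o = x j)).card : ℝ) := by
          refine prod_le_prod (fun j _ => by positivity) fun j _ => ?_
          rw [div_le_iff₀ hM, mul_comm]
          exact hx j
  have h3 : ((((univ : Finset (Fin N → Ω)).filter
      (fun f => ∀ j, φ (e j) (f (e j)) = x j)).card : ℝ)) * (Fintype.card Ω : ℝ) ^ Fintype.card κ =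
      H.card * (Fintype.card Ω : ℝ) ^ N := by exact_mod_cast h
  have h4 : (0 : ℝ) < (Fintype.card Ω : ℝ) ^ Fintype.card κ := by positivity
  rw [div_le_iff₀ (by positivity)]
  refine le_of_mul_le_mul_right ?_ h4
  have h5 : (Fintype.card Ω : ℝ) ^ Fintype.card κ ≤ H.card * M ^ Fintype.card κ := by
    rw [div_pow, div_le_iff₀ (by positivity)] at h2
    exact h2
  calc (Fintype.card Ω : ℝ) ^ N * (Fintype.card Ω : ℝ) ^ Fintype.card κ
      ≤ (Fintype.card Ω : ℝ) ^ N * (H.card * M ^ Fintype.card κ) :=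
        mul_le_mul_of_nonneg_left h5 (by positivity)
    _ = _ := by rw [mul_right_comm, h3]; ring

/-- tuples two of whose entries are related -/
theorem conflict {α : Type} [DecidableEq α] (k : ℕ) (X : Finset α) (W : α → Finset α) (m : ℕ)
    (hW : ∀ x ∈ X, (W x).card ≤ m) (j l : Fin k) (hjl : j ≠ l) :
    (((Fintype.piFinset fun _ : Fin k => X)).filter (fun x => x l ∈ W (x j))).card ≤
      m * X.card ^ (k - 1) := by
  classical
  set B := ((Fintype.piFinset fun _ : Fin k => X)).filter (fun x => x l ∈ W (x j)) with hB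
  set Y : Finset ({i : Fin k // i ≠ l} → α) := Fintype.piFinset fun _ => X with hY
  have hmap : ∀ x ∈ B, (fun i : {i : Fin k // i ≠ l} => x i) ∈ Y := by
    intro x hx
    rw [hY, Fintype.mem_piFinset]
    intro i
    exact Fintype.mem_piFinset.1 (mem_filter.1 hx).1 i
  have hfib : ∀ y ∈ Y, (B.filter (fun x => (fun i : {i : Fin k // i ≠ l} => x i) = y)).card ≤ m := by
    intro y hy
    refine le_trans (card_le_card_of_injOn (fun x => x l) (t := W (y ⟨j, hjl⟩)) ?_ ?_)
      (hW _ (Fintype.mem_piFinset.1 hy _))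
    · intro x hx
      obtain ⟨h1, h2⟩ := mem_filter.1 (mem_coe.1 hx)
      have h3 := (mem_filter.1 h1).2
      have h4 : x j = y ⟨j, hjl⟩ := congrFun h2 ⟨j, hjl⟩
      rw [← h4]
      exact h3
    · intro x hx x' hx' hxx
      have h2 := (mem_filter.1 (mem_coe.1 hx)).2
      have h2' := (mem_filter.1 (mem_coe.1 hx')).2
      funext i
      by_cases hi : i = l
      · rw [hi]; exact hxx
      · have := congrFun (h2.trans h2'.symm) ⟨i, hi⟩
        exact this
  have h1 := card_le_mul_card_image_of_maps_to hmap m hfib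
  refine h1.trans (le_of_eq ?_)
  rw [hY, Fintype.card_piFinset, prod_const, card_univ]
  congr 2
  simp

end Run7.h183.Smooth
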