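import Pool.Agent.Run7.h183.Smooth

/-!
Random additive perturbations of a finite set of integers: the likely values.
-/

set_option autoImplicit false

namespace Run7.h183.Smooth

open Finset Pool.Agent.W250.RS Pool.Agent.R849.SV Pool.Agent.R849.RF Pool.Agent.Y359.PE

variable {Ω : Type} [Fintype Ω] [Nonempty Ω]

/-- the likely values of the `i`-th number -/
noncomputable def V {N : ℕ} (φ : Fin N → Ω → ℤ) (M : ℝ) (i : Fin N) : Finset ℤ :=
  (univ.image (φ i)).filter fun v =>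
    (Fintype.card Ω : ℝ) ≤ M * ((univ.filter (fun o : Ω => φ i o = v)).card : ℝ)

theorem V_card {N : ℕ} (φ : Fin N → Ω → ℤ) (a : Fin N → ℤ) (w : ℕ) (δ : ℝ) (hδ : 0 < δ)
    (ha : ∀ i o, a i ≤ φ i o ∧ φ i o ≤ a i + w)
    (hat : ∀ i v, ((univ.filter (fun o : Ω => φ i o = v)).card : ℝ) ≤ δ * Fintype.card Ω)
    (i : Fin N) : 1 ≤ 2 * δ * ((V φ (2 * (w + 1)) i).card : ℝ) := by
  classical
  have hc : (0 : ℝ) < Fintype.card Ω := by exact_mod_cast Fintype.card_pos
  set I := univ.image (φ i) with hI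
  have h1 : (Fintype.card Ω : ℝ) = ∑ v ∈ I, ((univ.filter (fun o : Ω => φ i o = v)).card : ℝ) := by
    have := card_eq_sum_card_image (φ i) (univ : Finset Ω)
    rw [card_univ] at this
    exact_mod_cast this
  have hIc : (I.card : ℝ) ≤ w + 1 := by
    have h2 : I ⊆ Icc (a i) (a i + w) := by
      intro v hv
      obtain ⟨o, -, rfl⟩ := mem_image.1 hv
      exact mem_Icc.2 (ha i o)
    have h3 := card_le_card h2
    rw [Int.card_Icc] at h3
    have h4 : (a i + w + 1 - a i).toNat = w + 1 := by omega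
    rw [h4] at h3
    exact_mod_cast h3
  have h2 : ∑ v ∈ I, ((univ.filter (fun o : Ω => φ i o = v)).card : ℝ) =
      ∑ v ∈ V φ (2 * (w + 1)) i, ((univ.filter (fun o : Ω => φ i o = v)).card : ℝ) +
      ∑ v ∈ I.filter (fun v => ¬ (Fintype.card Ω : ℝ) ≤
        (2 * (w + 1)) * ((univ.filter (fun o : Ω => φ i o = v)).card : ℝ)),
        ((univ.filter (fun o : Ω => φ i o = v)).card : ℝ) := by
    unfold V
    rw [sum_filter_add_sum_filter_not]
  have h3 : ∑ v ∈ V φ (2 * (w + 1)) i, ((univ.filter (fun o : Ω => φ i o = v)).card : ℝ) ≤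
      (V φ (2 * (w + 1)) i).card * (δ * Fintype.card Ω) := by
    refine (sum_le_sum fun v _ => hat i v).trans ?_
    rw [sum_const, nsmul_eq_mul]
  have hw : (0 : ℝ) < 2 * ((w : ℝ) + 1) := by positivity
  have h4 : ∑ v ∈ I.filter (fun v => ¬ (Fintype.card Ω : ℝ) ≤
        (2 * (w + 1)) * ((univ.filter (fun o : Ω => φ i o = v)).card : ℝ)),
        ((univ.filter (fun o : Ω => φ i o = v)).card : ℝ) ≤ Fintype.card Ω / 2 := by
    have h5 : ∀ v ∈ I.filter (fun v => ¬ (Fintype.card Ω : ℝ) ≤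
        (2 * (w + 1)) * ((univ.filter (fun o : Ω => φ i o = v)).card : ℝ)),
        ((univ.filter (fun o : Ω => φ i o = v)).card : ℝ) ≤
          Fintype.card Ω / (2 * (w + 1)) := by
      intro v hv
      have := (mem_filter.1 hv).2
      rw [not_le] at this
      rw [le_div_iff₀ hw]
      linarith
    refine (sum_le_sum h5).trans ?_
    rw [sum_const, nsmul_eq_mul]
    have h6 : ((I.filter (fun v => ¬ (Fintype.card Ω : ℝ) ≤
        (2 * (w + 1)) * ((univ.filter (fun o : Ω => φ i o = v)).card : ℝ))).card : ℝ) ≤ w + 1 :=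
      le_trans (by exact_mod_cast card_filter_le _ _) hIc
    calc _ ≤ ((w : ℝ) + 1) * (Fintype.card Ω / (2 * (w + 1))) :=
          mul_le_mul_of_nonneg_right h6 (by positivity)
      _ = Fintype.card Ω / 2 := by
          have : ((w : ℝ) + 1) ≠ 0 := by positivity
          field_simp
  have h7 : (Fintype.card Ω : ℝ) * 1 ≤
      Fintype.card Ω * (2 * δ * ((V φ (2 * (w + 1)) i).card : ℝ)) := by
    nlinarith
  exact le_of_mul_le_mul_left h7 hc

theorem V_sub {N : ℕ} (φ : Fin N → Ω → ℤ) (a : Fin N → ℤ) (w : ℕ) (M : ℝ)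
    (ha : ∀ i o, a i ≤ φ i o ∧ φ i o ≤ a i + w) (i : Fin N) {v : ℤ} (hv : v ∈ V φ M i) :
    a i ≤ v ∧ v ≤ a i + w := by
  unfold V at hv
  obtain ⟨o, -, rfl⟩ := mem_image.1 (mem_filter.1 hv).1
  exact ha i o

/-- the likely values -/
noncomputable def XX {N : ℕ} (φ : Fin N → Ω → ℤ) (M : ℝ) : Finset ℤ := univ.biUnion (V φ M)

theorem clust {N : ℕ} (φ : Fin N → Ω → ℤ) (a : Fin N → ℤ) (w n : ℕ) (M : ℝ)
    (ha : ∀ i o, a i ≤ φ i o ∧ φ i o ≤ a i + w) (hn : ∀ i, n ≤ (V φ M i).card) :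
    Clust n w (XX φ M) := by
  intro x hx
  obtain ⟨i, -, hi⟩ := mem_biUnion.1 hx
  refine (hn i).trans (card_le_card fun y hy => ?_)
  refine mem_filter.2 ⟨mem_biUnion.2 ⟨i, mem_univ _, hy⟩, ?_⟩
  have h1 := V_sub φ a w M ha i hi
  have h2 := V_sub φ a w M ha i hy
  rw [abs_le]
  constructor <;> linarith [h1.1, h1.2, h2.1, h2.2]

theorem V_le {N : ℕ} (φ : Fin N → Ω → ℤ) (a : Fin N → ℤ) (w : ℕ) (M : ℝ)
    (ha : ∀ i o, a i ≤ φ i o ∧ φ i o ≤ a i + w) (i : Fin N) : (V φ M i).card ≤ w + 1 := by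
  have h2 : V φ M i ⊆ Icc (a i) (a i + w) := fun v hv => mem_Icc.2 (V_sub φ a w M ha i hv)
  have h3 := card_le_card h2
  rw [Int.card_Icc] at h3
  have h4 : (a i + w + 1 - a i).toNat = w + 1 := by omega
  rwa [h4] at h3

theorem XX_card {N : ℕ} (φ : Fin N → Ω → ℤ) (a : Fin N → ℤ) (hinj : Function.Injective a)
    (w : ℕ) (M : ℝ) (ha : ∀ i o, a i ≤ φ i o ∧ φ i o ≤ a i + w)
    (hn : ∀ i, 1 ≤ (V φ M i).card) : N ≤ (w + 1) * (XX φ M).card := by
  classical
  choose v hv using fun i => card_pos.1 (hn i)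
  have hmap : ∀ i ∈ (univ : Finset (Fin N)), v i ∈ XX φ M := fun i _ =>
    mem_biUnion.2 ⟨i, mem_univ _, hv i⟩
  have hfib : ∀ x ∈ XX φ M, ((univ : Finset (Fin N)).filter (fun i => v i = x)).card ≤ w + 1 := by
    intro x _
    have h1 : ((univ : Finset (Fin N)).filter (fun i => v i = x)).card ≤ (Icc (x - w) x).card := by
      refine card_le_card_of_injOn a ?_ fun i _ j _ h => hinj h
      intro i hi
      have h2 := (mem_filter.1 (mem_coe.1 hi)).2
      have h3 := V_sub φ a w M ha i (hv i)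
      rw [h2] at h3
      exact mem_coe.2 (mem_Icc.2 ⟨by linarith [h3.2], h3.1⟩)
    rw [Int.card_Icc] at h1
    have h4 : (x + 1 - (x - w)).toNat = w + 1 := by omega
    rwa [h4] at h1
  have h := card_le_mul_card_image_of_maps_to hmap (w + 1) hfib
  rwa [card_univ, Fintype.card_fin] at h

theorem V_prob {N : ℕ} (φ : Fin N → Ω → ℤ) (M : ℝ) (i : Fin N) {v : ℤ} (hv : v ∈ V φ M i) :
    (Fintype.card Ω : ℝ) ≤ M * ((univ.filter (fun o : Ω => φ i o = v)).card : ℝ) := by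
  unfold V at hv
  exact (mem_filter.1 hv).2

end Run7.h183.Smooth
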