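import Pool.Agent.Run7.h183.SmoothA

/-!
Random additive perturbations of a finite set of integers: `k`-fold products of the values of a
polynomial.
-/

set_option autoImplicit false

namespace Run7.h183.Smooth

open Finset Pool.Agent.W250.RS Pool.Agent.R849.SV Pool.Agent.R849.RF Pool.Agent.Y359.PE

/-- the products of `k` values of `f` at the numbers `y i` -/
noncomputable def prods (k : ℕ) {N : ℕ} (f : Polynomial ℤ) (y : Fin N → ℤ) : Finset ℤ :=
  (univ : Finset (Fin k → Fin N)).image (fun ι => ∏ j, f.eval (y (ι j)))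

theorem prods_pos (k : ℕ) {N : ℕ} (hN : 1 ≤ N) (f : Polynomial ℤ) (y : Fin N → ℤ) :
    1 ≤ (prods k f y).card := by
  haveI : Nonempty (Fin N) := ⟨⟨0, hN⟩⟩
  unfold prods
  exact card_pos.2 (univ_nonempty.image _)

theorem bd (k : ℕ) (hk : 1 ≤ k) {Ω : Type} {N : ℕ} (f : Polynomial ℤ) (φ : Fin N → Ω → ℤ)
    (o : Fin N → Ω) (i : Fin N) (a : Ω) :
    |((prods k f (fun i' => φ i' (Function.update o i a i'))).card : ℝ) -
      ((prods k f (fun i' => φ i' (o i'))).card : ℝ)| ≤ (k : ℝ) * (N : ℝ) ^ (k - 1) := by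
  have h := Pool.Agent.W52.RS.t_BD ℤ ℤ k N (fun y => ∏ j, f.eval (y j))
    (fun i' => φ i' (o i')) i (φ i a) hk
  have e : (fun i' => φ i' (Function.update o i a i')) =
      Function.update (fun i' => φ i' (o i')) i (φ i a) := by
    funext i'
    by_cases hi : i' = i
    · subst hi; simp
    · simp [hi]
  rw [e]
  exact h

/-- the number of the values with a representation by numbers with different indices -/
theorem good (k : ℕ) {N : ℕ} {Ω : Type} [Fintype Ω] (f : Polynomial ℤ)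
    (φ : Fin N → Ω → ℤ) (M : ℝ) (m : ℕ) (hV : ∀ i, (V φ M i).card ≤ m) (idx : ℤ → Fin N)
    (hidx : ∀ x ∈ XX φ M, x ∈ V φ M (idx x)) :
    (pk k (vals f (XX φ M))).card ≤
      ((((Fintype.piFinset fun _ : Fin k => XX φ M)).filter
        (fun x => Function.Injective (fun j => idx (x j)))).image
          (fun x => ∏ j, f.eval (x j))).card + k ^ 2 * (m * (XX φ M).card ^ (k - 1)) := by
  classical
  set X := XX φ M with hX
  set P := Fintype.piFinset fun _ : Fin k => X with hP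
  have h1 : pk k (vals f X) ⊆ P.image (fun x => ∏ j, f.eval (x j)) := by
    intro u hu
    unfold pk at hu
    obtain ⟨z, hz, rfl⟩ := mem_image.1 hu
    have h2 : ∀ j, ∃ x ∈ X, f.eval x = z j := by
      intro j
      have := Fintype.mem_piFinset.1 hz j
      unfold vals at this
      obtain ⟨x, hx, hxz⟩ := mem_image.1 (mem_of_mem_erase this)
      exact ⟨x, hx, hxz⟩
    choose x hx hxz using h2
    refine mem_image.2 ⟨x, Fintype.mem_piFinset.2 hx, ?_⟩
    exact prod_congr rfl fun j _ => hxz j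
  have h2 : P.image (fun x => ∏ j, f.eval (x j)) ⊆
      (P.filter (fun x => Function.Injective (fun j => idx (x j)))).image
        (fun x => ∏ j, f.eval (x j)) ∪
      (P.filter (fun x => ¬ Function.Injective (fun j => idx (x j)))).image
        (fun x => ∏ j, f.eval (x j)) := by
    rw [← image_union, filter_union_filter_not_eq]
  have h3 : (P.filter (fun x => ¬ Function.Injective (fun j => idx (x j)))).card ≤
      k ^ 2 * (m * X.card ^ (k - 1)) := by
    have h4 : P.filter (fun x => ¬ Function.Injective (fun j => idx (x j))) ⊆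
        ((univ : Finset (Fin k × Fin k)).filter (fun q => q.1 ≠ q.2)).biUnion
          (fun q => P.filter (fun x => x q.2 ∈ V φ M (idx (x q.1)))) := by
      intro x hx
      obtain ⟨hxP, hx2⟩ := mem_filter.1 hx
      rw [Function.Injective] at hx2
      push Not at hx2
      obtain ⟨j, l, hjl, hne⟩ := hx2
      refine mem_biUnion.2 ⟨(j, l), mem_filter.2 ⟨mem_univ _, hne⟩, mem_filter.2 ⟨hxP, ?_⟩⟩
      show x l ∈ V φ M (idx (x j))
      have e : idx (x j) = idx (x l) := hjl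
      rw [e]
      exact hidx _ (Fintype.mem_piFinset.1 hxP l)
    refine (card_le_card h4).trans (card_biUnion_le.trans ?_)
    have h5 : ∀ q ∈ (univ : Finset (Fin k × Fin k)).filter (fun q => q.1 ≠ q.2),
        (P.filter (fun x => x q.2 ∈ V φ M (idx (x q.1)))).card ≤ m * X.card ^ (k - 1) := by
      intro q hq
      exact conflict k X (fun x => V φ M (idx x)) m (fun x _ => hV _) q.1 q.2 (mem_filter.1 hq).2
    refine (sum_le_sum h5).trans ?_
    rw [sum_const, smul_eq_mul]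
    refine Nat.mul_le_mul_right _ ((card_filter_le _ _).trans ?_)
    rw [card_univ, Fintype.card_prod, Fintype.card_fin, sq]
  calc (pk k (vals f X)).card ≤ _ := card_le_card (h1.trans h2)
    _ ≤ _ := card_union_le _ _
    _ ≤ _ := Nat.add_le_add_left (card_image_le.trans h3) _

theorem rpow_id {x ε : ℝ} (hx : 0 < x) (k : ℕ) (hk : 1 ≤ k) :
    (x ^ ((k : ℝ) - ε)) ^ 2 = x ^ (1 - 2 * ε) * (x * (x ^ (k - 1)) ^ 2) := by
  have h1 : x ^ (k - 1) = x ^ ((k : ℝ) - 1) := by
    rw [← Real.rpow_natCast]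
    congr 1
    push_cast [hk]
    ring
  have h2 : x * (x ^ (k - 1)) ^ 2 = x ^ (2 * (k : ℝ) - 1) := by
    rw [h1, ← Real.rpow_natCast (x ^ ((k : ℝ) - 1)) 2, ← Real.rpow_mul hx.le]
    nth_rewrite 1 [← Real.rpow_one x]
    rw [← Real.rpow_add hx]
    congr 1
    push_cast
    ring
  rw [h2, ← Real.rpow_add hx, ← Real.rpow_natCast, ← Real.rpow_mul hx.le]
  congr 1
  push_cast
  ring

theorem main_k (k : ℕ) (hk : 1 ≤ k) (ε : ℝ) (hε : 0 < ε) (hε1 : ε ≤ 1 / 2) (d : ℕ) :
    ∃ δ : ℝ, 0 < δ ∧ ∀ w : ℕ, ∃ c : ℝ, 0 < c ∧ ∀ (Ω : Type) [Fintype Ω] [Nonempty Ω] (N : ℕ)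
      (a : Fin N → ℤ) (φ : Fin N → Ω → ℤ), 1 ≤ N → Function.Injective a →
      (∀ i o, a i ≤ φ i o ∧ φ i o ≤ a i + w) →
      (∀ i v, ((univ.filter (fun o : Ω => φ i o = v)).card : ℝ) ≤ δ * Fintype.card Ω) →
      ∀ f : Polynomial ℤ, 1 ≤ f.natDegree → f.natDegree ≤ d →
      (((univ : Finset (Fin N → Ω)).filter (fun o =>
        ((prods k f (fun i => φ i (o i))).card : ℝ) < c * (N : ℝ) ^ ((k : ℝ) - ε))).card : ℝ) ≤
        Real.exp (-(c * (N : ℝ) ^ (1 - 2 * ε))) * (Fintype.card Ω : ℝ) ^ N := by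
  classical
  obtain ⟨n, hp⟩ := poly k hk ε hε (by linarith) d
  have hkr : (1 : ℝ) ≤ k := by exact_mod_cast hk
  refine ⟨1 / (2 * (n + 1)), by positivity, fun w => ?_⟩
  obtain ⟨c₀, hc₀, hp⟩ := hp w
  set M : ℝ := 2 * (w + 1) with hM
  have hM0 : 0 < M := by positivity
  set T : ℝ := 2 * k ^ 2 * (w + 1) / c₀ + 1 with hT
  have hT1 : 1 ≤ T := by
    rw [hT]
    have : 0 ≤ 2 * (k : ℝ) ^ 2 * (w + 1) / c₀ := by positivity
    linarith
  set N₀ : ℝ := (w + 1) * T ^ 2 with hN₀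
  have hN₀1 : 1 ≤ N₀ := by
    have h1 : (1 : ℝ) ≤ w + 1 := by linarith [Nat.cast_nonneg (α := ℝ) w]
    have h2 : (1 : ℝ) ≤ T ^ 2 := one_le_pow₀ hT1
    calc (1 : ℝ) = 1 * 1 := by ring
      _ ≤ (w + 1) * T ^ 2 := mul_le_mul h1 h2 zero_le_one (by linarith)
  set c₁ : ℝ := c₀ / 2 * (1 / ((w : ℝ) + 1)) ^ ((k : ℝ) - ε) / M ^ k with hc₁
  have hc₁0 : 0 < c₁ := by
    rw [hc₁]
    have : (0 : ℝ) < (1 / ((w : ℝ) + 1)) ^ ((k : ℝ) - ε) := by positivity
    positivity
  set c : ℝ := min (c₁ / 2) (min (c₁ ^ 2 / (16 * k ^ 2)) (1 / N₀ ^ k)) with hc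
  have hc0 : 0 < c := by
    rw [hc]
    refine lt_min (by positivity) (lt_min (by positivity) (by positivity))
  refine ⟨c, hc0, ?_⟩
  intro Ω _ _ N a φ hN hinj ha hat f hf hfd
  have hNr : (1 : ℝ) ≤ N := by exact_mod_cast hN
  have hN0 : (0 : ℝ) < N := by linarith
  have hΩ : (0 : ℝ) < (Fintype.card Ω : ℝ) ^ N := by
    have : (0 : ℝ) < Fintype.card Ω := by exact_mod_cast Fintype.card_pos
    positivity
  rcases lt_or_ge (N : ℝ) N₀ with hsmall | hbig
  · -- few numbers
    have h1 : ∀ o : Fin N → Ω, ¬ ((prods k f (fun i => φ i (o i))).card : ℝ) <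
        c * (N : ℝ) ^ ((k : ℝ) - ε) := by
      intro o
      rw [not_lt]
      have h2 : (1 : ℝ) ≤ (prods k f (fun i => φ i (o i))).card := by
        exact_mod_cast prods_pos k hN f _
      refine le_trans ?_ h2
      have h3 : (N : ℝ) ^ ((k : ℝ) - ε) ≤ N₀ ^ k := by
        calc (N : ℝ) ^ ((k : ℝ) - ε) ≤ (N : ℝ) ^ (k : ℝ) :=
              Real.rpow_le_rpow_of_exponent_le hNr (by linarith)
          _ = (N : ℝ) ^ k := Real.rpow_natCast _ _
          _ ≤ N₀ ^ k := pow_le_pow_left₀ hN0.le hsmall.le k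
      calc c * (N : ℝ) ^ ((k : ℝ) - ε) ≤ 1 / N₀ ^ k * N₀ ^ k :=
            mul_le_mul ((min_le_right _ _).trans (min_le_right _ _)) h3 (by positivity)
              (by positivity)
        _ = 1 := by field_simp
    rw [filter_false_of_mem fun o _ => h1 o]
    simp only [card_empty, Nat.cast_zero]
    positivity
  · -- many numbers
    set X := XX φ M with hX
    have hV1 : ∀ i, n + 1 ≤ (V φ M i).card := by
      intro i
      have h1 := V_card φ a w (1 / (2 * ((n : ℝ) + 1))) (by positivity) ha hat i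
      have h2 : ((n : ℝ) + 1) ≤ (V φ M i).card := by
        have h3 : 2 * (1 / (2 * ((n : ℝ) + 1))) * ((V φ M i).card : ℝ) =
            ((V φ M i).card : ℝ) / (n + 1) := by field_simp
        rw [← hM, h3, le_div_iff₀ (by positivity), one_mul] at h1
        exact h1
      exact_mod_cast h2
    have hVm : ∀ i, (V φ M i).card ≤ w + 1 := V_le φ a w M ha
    have hXN : N ≤ (w + 1) * X.card := XX_card φ a hinj w M ha fun i => by
      have := hV1 i
      omega
    have hXNr : (N : ℝ) ≤ (w + 1) * X.card := by exact_mod_cast hXN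
    have hXne : X.Nonempty := by
      rw [← card_pos]
      by_contra hcon
      have : X.card = 0 := by omega
      rw [this] at hXN
      omega
    have hcl : Clust n w X := clust φ a w n M ha fun i => by
      have := hV1 i
      omega
    have hpX := hp f hf hfd X hXne hcl
    haveI : Nonempty (Fin N) := ⟨⟨0, hN⟩⟩
    have hex : ∀ x : ℤ, ∃ i : Fin N, x ∈ X → x ∈ V φ M i := by
      intro x
      by_cases hx : x ∈ X
      · obtain ⟨i, -, hi⟩ := mem_biUnion.1 hx
        exact ⟨i, fun _ => hi⟩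
      · exact ⟨Classical.arbitrary _, fun h => absurd h hx⟩
    choose idx hidx using hex
    have hgood := good k f φ M (w + 1) hVm idx hidx
    set P := Fintype.piFinset fun _ : Fin k => XX φ M with hP
    set G₀ := P.filter (fun x => Function.Injective (fun j => idx (x j))) with hG₀
    set Ug := G₀.image (fun x => ∏ j, f.eval (x j)) with hUg
    -- size of `Ug`
    have hX1 : (1 : ℝ) ≤ X.card := by exact_mod_cast hXne.card_pos
    have hX0 : (0 : ℝ) < X.card := by linarith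
    have hw1 : (0 : ℝ) < (w : ℝ) + 1 := by positivity
    have hXT : T ^ 2 ≤ X.card := by
      have h1 : (w + 1) * T ^ 2 ≤ (w + 1) * (X.card : ℝ) := hbig.trans hXNr
      exact le_of_mul_le_mul_left h1 hw1
    have hXT' : T ≤ (X.card : ℝ) ^ (1 - ε) := by
      have h1 : T = (T ^ 2) ^ (1 / 2 : ℝ) := by
        rw [← Real.rpow_natCast, ← Real.rpow_mul (by linarith)]
        norm_num
      rw [h1]
      calc (T ^ 2) ^ (1 / 2 : ℝ) ≤ (X.card : ℝ) ^ (1 / 2 : ℝ) :=
            Real.rpow_le_rpow (by positivity) hXT (by norm_num)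
        _ ≤ (X.card : ℝ) ^ (1 - ε) := Real.rpow_le_rpow_of_exponent_le hX1 (by linarith)
    have hUgc : c₀ / 2 * (X.card : ℝ) ^ ((k : ℝ) - ε) ≤ (Ug.card : ℝ) := by
      have h1 : ((pk k (vals f X)).card : ℝ) ≤
          (Ug.card : ℝ) + (k : ℝ) ^ 2 * ((w + 1) * (X.card : ℝ) ^ (k - 1)) := by
        exact_mod_cast hgood
      have h2 : (X.card : ℝ) ^ ((k : ℝ) - ε) = (X.card : ℝ) ^ (k - 1) * (X.card : ℝ) ^ (1 - ε) := by
        rw [← Real.rpow_natCast, ← Real.rpow_add hX0]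
        congr 1
        push_cast [hk]
        ring
      have h3 : (k : ℝ) ^ 2 * ((w + 1) * (X.card : ℝ) ^ (k - 1)) ≤
          c₀ / 2 * (X.card : ℝ) ^ ((k : ℝ) - ε) := by
        rw [h2]
        have h4 : (k : ℝ) ^ 2 * (w + 1) ≤ c₀ / 2 * (X.card : ℝ) ^ (1 - ε) := by
          have h5 : c₀ / 2 * (2 * k ^ 2 * (w + 1) / c₀) ≤ c₀ / 2 * (X.card : ℝ) ^ (1 - ε) := by
            refine mul_le_mul_of_nonneg_left ?_ (by positivity)
            rw [hT] at hXT'
            linarith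
          have h6 : c₀ / 2 * (2 * k ^ 2 * (w + 1) / c₀) = (k : ℝ) ^ 2 * (w + 1) := by
            field_simp
          linarith
        have h7 : 0 ≤ (X.card : ℝ) ^ (k - 1) := by positivity
        nlinarith
      linarith
    -- the expected number of products
    set μ : ℝ := Ug.card / M ^ k with hμ
    have hμ0 : 0 ≤ μ := by positivity
    have hμ1 : c₁ * (N : ℝ) ^ ((k : ℝ) - ε) ≤ μ := by
      rw [hμ, hc₁, le_div_iff₀ (by positivity)]
      have h1 : (1 / ((w : ℝ) + 1)) ^ ((k : ℝ) - ε) * (N : ℝ) ^ ((k : ℝ) - ε) ≤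
          (X.card : ℝ) ^ ((k : ℝ) - ε) := by
        rw [← Real.mul_rpow (by positivity) hN0.le]
        refine Real.rpow_le_rpow (by positivity) ?_ (by linarith)
        rw [one_div, inv_mul_le_iff₀ hw1]
        exact hXNr
      calc c₀ / 2 * (1 / ((w : ℝ) + 1)) ^ ((k : ℝ) - ε) / M ^ k * (N : ℝ) ^ ((k : ℝ) - ε) * M ^ k
          = c₀ / 2 * ((1 / ((w : ℝ) + 1)) ^ ((k : ℝ) - ε) * (N : ℝ) ^ ((k : ℝ) - ε)) := by
            field_simp
        _ ≤ c₀ / 2 * (X.card : ℝ) ^ ((k : ℝ) - ε) := mul_le_mul_of_nonneg_left h1 (by positivity)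
        _ ≤ _ := hUgc
    have hsum : μ * (Fintype.card Ω : ℝ) ^ N ≤
        ∑ o : Fin N → Ω, ((prods k f (fun i => φ i (o i))).card : ℝ) := by
      have h1 := sum_ge N (fun o : Fin N → Ω => prods k f (fun i => φ i (o i))) Ug
        ((Fintype.card Ω : ℝ) ^ N / M ^ k) (by
          intro u hu
          obtain ⟨x, hx, rfl⟩ := mem_image.1 hu
          obtain ⟨hxP, hxi⟩ := mem_filter.1 hx
          have h2 := prob_ge (Ω := Ω) N φ (fun j => idx (x j)) hxi x M hM0 (fun j =>
            V_prob φ M _ (hidx _ (Fintype.mem_piFinset.1 hxP j)))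
          rw [Fintype.card_fin] at h2
          refine h2.trans ?_
          refine Nat.cast_le.2 (card_le_card fun o ho => ?_)
          simp only [mem_filter] at ho
          have ho' := ho.2
          refine mem_filter.2 ⟨mem_univ _, mem_image.2 ⟨fun j => idx (x j), mem_univ _, ?_⟩⟩
          refine prod_congr rfl fun j _ => ?_
          have h3 : φ (idx (x j)) (o (idx (x j))) = x j := ho' j
          show f.eval (φ (idx (x j)) (o (idx (x j)))) = f.eval (x j)
          rw [h3])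
      calc μ * (Fintype.card Ω : ℝ) ^ N = (Ug.card : ℝ) * ((Fintype.card Ω : ℝ) ^ N / M ^ k) := by
            rw [hμ]; ring
        _ ≤ _ := h1
    have hD : (0 : ℝ) < (k : ℝ) * (N : ℝ) ^ (k - 1) := by positivity
    have hmc := mc N (fun o : Fin N → Ω => ((prods k f (fun i => φ i (o i))).card : ℝ))
      ((k : ℝ) * (N : ℝ) ^ (k - 1)) μ hN hD hμ0 (fun o i b => bd k hk f φ o i b) hsum
    have hcN : c * (N : ℝ) ^ ((k : ℝ) - ε) ≤ μ / 2 := by
      have h1 : c * (N : ℝ) ^ ((k : ℝ) - ε) ≤ c₁ / 2 * (N : ℝ) ^ ((k : ℝ) - ε) :=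
        mul_le_mul_of_nonneg_right (min_le_left _ _) (by positivity)
      linarith
    have hexp : c * (N : ℝ) ^ (1 - 2 * ε) ≤ μ ^ 2 / (16 * N * ((k : ℝ) * (N : ℝ) ^ (k - 1)) ^ 2) := by
      rw [le_div_iff₀ (by positivity)]
      have h1 : (c₁ * (N : ℝ) ^ ((k : ℝ) - ε)) ^ 2 ≤ μ ^ 2 :=
        pow_le_pow_left₀ (by positivity) hμ1 2
      refine le_trans ?_ h1
      have he : (c₁ * (N : ℝ) ^ ((k : ℝ) - ε)) ^ 2 =
          c₁ ^ 2 * ((N : ℝ) ^ (1 - 2 * ε) * (N * ((N : ℝ) ^ (k - 1)) ^ 2)) := by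
        rw [mul_pow, rpow_id hN0 k hk]
      rw [he]
      have h2 : c ≤ c₁ ^ 2 / (16 * k ^ 2) := (min_le_right _ _).trans (min_le_left _ _)
      have h3 : c * (16 * (k : ℝ) ^ 2) ≤ c₁ ^ 2 := by
        rwa [le_div_iff₀ (by positivity)] at h2
      have h4 : 0 ≤ (N : ℝ) ^ (1 - 2 * ε) * (N * ((N : ℝ) ^ (k - 1)) ^ 2) := by positivity
      calc c * (N : ℝ) ^ (1 - 2 * ε) * (16 * N * ((k : ℝ) * (N : ℝ) ^ (k - 1)) ^ 2)
          = c * (16 * (k : ℝ) ^ 2) * ((N : ℝ) ^ (1 - 2 * ε) * (N * ((N : ℝ) ^ (k - 1)) ^ 2)) := by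
            ring
        _ ≤ c₁ ^ 2 * ((N : ℝ) ^ (1 - 2 * ε) * (N * ((N : ℝ) ^ (k - 1)) ^ 2)) :=
            mul_le_mul_of_nonneg_right h3 h4
    calc (((univ : Finset (Fin N → Ω)).filter (fun o =>
        ((prods k f (fun i => φ i (o i))).card : ℝ) < c * (N : ℝ) ^ ((k : ℝ) - ε))).card : ℝ)
        ≤ (((univ : Finset (Fin N → Ω)).filter (fun o =>
          ((prods k f (fun i => φ i (o i))).card : ℝ) ≤ μ / 2)).card : ℝ) := by
          exact_mod_cast card_le_card fun o ho => by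
            refine mem_filter.2 ⟨mem_univ _, ?_⟩
            exact ((mem_filter.1 ho).2.le).trans hcN
      _ ≤ _ := hmc
      _ ≤ _ := by
          refine mul_le_mul_of_nonneg_right ?_ hΩ.le
          exact Real.exp_le_exp.2 (neg_le_neg hexp)

end Run7.h183.Smooth
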