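import Pool.Agent.Run7.h183.SmoothB

/-!
Random additive perturbations of a finite set of integers: products with a fixed set.
-/

set_option autoImplicit false

namespace Run7.h183.Smooth

open Finset Pool.Agent.W250.RS Pool.Agent.R849.SV Pool.Agent.R849.RF Pool.Agent.Y359.PE

/-- the numbers `b f(y i)` -/
noncomputable def mult (B : Finset ℂ) {N : ℕ} (f : Polynomial ℤ) (y : Fin N → ℤ) : Finset ℂ :=
  (B ×ˢ (univ : Finset (Fin N))).image (fun s => s.1 * ((f.eval (y s.2) : ℤ) : ℂ))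

theorem mult_le (B : Finset ℂ) {N : ℕ} (f : Polynomial ℤ) (y z : Fin N → ℤ) (i : Fin N)
    (h : ∀ i', i' ≠ i → y i' = z i') : (mult B f y).card ≤ (mult B f z).card + B.card := by
  classical
  have h1 : mult B f y ⊆ mult B f z ∪ B.image (fun b => b * ((f.eval (y i) : ℤ) : ℂ)) := by
    intro u hu
    obtain ⟨s, hs, rfl⟩ := mem_image.1 hu
    by_cases hi : s.2 = i
    · exact mem_union_right _ (mem_image.2 ⟨s.1, (mem_product.1 hs).1, by rw [hi]⟩)
    · refine mem_union_left _ (mem_image.2 ⟨s, hs, ?_⟩)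
      show s.1 * ((f.eval (z s.2) : ℤ) : ℂ) = s.1 * ((f.eval (y s.2) : ℤ) : ℂ)
      rw [h _ hi]
  exact (card_le_card h1).trans ((card_union_le _ _).trans (Nat.add_le_add_left card_image_le _))

theorem bdA (B : Finset ℂ) {Ω : Type} {N : ℕ} (f : Polynomial ℤ) (φ : Fin N → Ω → ℤ)
    (o : Fin N → Ω) (i : Fin N) (a : Ω) :
    |((mult B f (fun i' => φ i' (Function.update o i a i'))).card : ℝ) -
      ((mult B f (fun i' => φ i' (o i'))).card : ℝ)| ≤ (B.card : ℝ) := by
  have h : ∀ i', i' ≠ i → φ i' (Function.update o i a i') = φ i' (o i') := by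
    intro i' hi
    rw [Function.update_of_ne hi]
  have h1 := mult_le B f (fun i' => φ i' (Function.update o i a i')) (fun i' => φ i' (o i')) i h
  have h2 := mult_le B f (fun i' => φ i' (o i')) (fun i' => φ i' (Function.update o i a i')) i
    (fun i' hi => (h i' hi).symm)
  have h1' : ((mult B f (fun i' => φ i' (Function.update o i a i'))).card : ℝ) ≤
    ((mult B f (fun i' => φ i' (o i'))).card : ℝ) + B.card := by exact_mod_cast h1
  have h2' : ((mult B f (fun i' => φ i' (o i'))).card : ℝ) ≤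
    ((mult B f (fun i' => φ i' (Function.update o i a i'))).card : ℝ) + B.card := by
    exact_mod_cast h2
  rw [abs_le]
  constructor <;> linarith

/-- some value is not `0` if there are many numbers -/
theorem mult_ge (B : Finset ℂ) {N : ℕ} (f : Polynomial ℤ) (hf : 1 ≤ f.natDegree) (y a : Fin N → ℤ)
    (hinj : Function.Injective a) (w : ℕ) (ha : ∀ i, a i ≤ y i ∧ y i ≤ a i + w)
    (hN : f.natDegree * (w + 1) < N) : B.card ≤ (mult B f y).card := by
  classical
  have hf0 : f ≠ 0 := by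
    rintro rfl
    simp at hf
  have hex : ∃ i, f.eval (y i) ≠ 0 := by
    by_contra hcon
    push Not at hcon
    have hmap : ∀ i ∈ (univ : Finset (Fin N)), y i ∈ f.roots.toFinset := by
      intro i _
      rw [Multiset.mem_toFinset, Polynomial.mem_roots hf0]
      exact hcon i
    have hfib : ∀ x ∈ f.roots.toFinset,
        ((univ : Finset (Fin N)).filter (fun i => y i = x)).card ≤ w + 1 := by
      intro x _
      have h1 : ((univ : Finset (Fin N)).filter (fun i => y i = x)).card ≤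
          (Icc (x - w) x).card := by
        refine card_le_card_of_injOn a ?_ fun i _ j _ h => hinj h
        intro i hi
        have h2 := (mem_filter.1 (mem_coe.1 hi)).2
        have h3 := ha i
        rw [h2] at h3
        exact mem_coe.2 (mem_Icc.2 ⟨by linarith [h3.2], h3.1⟩)
      rw [Int.card_Icc] at h1
      have h4 : (x + 1 - (x - w)).toNat = w + 1 := by omega
      rwa [h4] at h1
    have h := card_le_mul_card_image_of_maps_to hmap (w + 1) hfib
    rw [card_univ, Fintype.card_fin] at h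
    have h5 : f.roots.toFinset.card ≤ f.natDegree :=
      (Multiset.toFinset_card_le _).trans (Polynomial.card_roots' f)
    have h6 : (w + 1) * f.roots.toFinset.card ≤ (w + 1) * f.natDegree := Nat.mul_le_mul_left _ h5
    have h7 : (w + 1) * f.natDegree = f.natDegree * (w + 1) := mul_comm _ _
    omega
  obtain ⟨i, hi⟩ := hex
  have hi' : ((f.eval (y i) : ℤ) : ℂ) ≠ 0 := by exact_mod_cast hi
  have h1 : B.image (fun b => b * ((f.eval (y i) : ℤ) : ℂ)) ⊆ mult B f y := by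
    intro u hu
    obtain ⟨b, hb, rfl⟩ := mem_image.1 hu
    exact mem_image.2 ⟨(b, i), mem_product.2 ⟨hb, mem_univ _⟩, rfl⟩
  have h2 : (B.image (fun b => b * ((f.eval (y i) : ℤ) : ℂ))).card = B.card :=
    card_image_of_injective _ (mul_left_injective₀ hi')
  exact h2 ▸ card_le_card h1

theorem main_A (ε : ℝ) (hε : 0 < ε) (hε1 : ε ≤ 1) (d : ℕ) :
    ∃ δ : ℝ, 0 < δ ∧ ∀ w : ℕ, ∃ c : ℝ, 0 < c ∧ ∀ (Ω : Type) [Fintype Ω] [Nonempty Ω] (N : ℕ)
      (a : Fin N → ℤ) (φ : Fin N → Ω → ℤ), 1 ≤ N → Function.Injective a →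
      (∀ i o, a i ≤ φ i o ∧ φ i o ≤ a i + w) →
      (∀ i v, ((univ.filter (fun o : Ω => φ i o = v)).card : ℝ) ≤ δ * Fintype.card Ω) →
      ∀ f : Polynomial ℤ, 1 ≤ f.natDegree → f.natDegree ≤ d →
      ∀ B : Finset ℂ, B.Nonempty → (0 : ℂ) ∉ B →
      (((univ : Finset (Fin N → Ω)).filter (fun o =>
        ((mult B f (fun i => φ i (o i))).card : ℝ) < c * (B.card * (N : ℝ)) ^ (1 - ε))).card : ℝ) ≤
        Real.exp (-(c * ((N : ℝ) ^ (1 - 2 * ε) * (B.card : ℝ) ^ (-(2 * ε))))) *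
          (Fintype.card Ω : ℝ) ^ N := by
  classical
  obtain ⟨n, hp⟩ := clustA ε hε hε1 d
  refine ⟨1 / (2 * (n + 1)), by positivity, fun w => ?_⟩
  obtain ⟨c₀, hc₀, hp⟩ := hp w
  set M : ℝ := 2 * (w + 1) with hM
  have hM0 : 0 < M := by positivity
  have hw1 : (0 : ℝ) < (w : ℝ) + 1 := by positivity
  set c₁ : ℝ := c₀ * (1 / ((w : ℝ) + 1)) ^ (1 - ε) / M with hc₁
  have hc₁0 : 0 < c₁ := by
    rw [hc₁]
    have : (0 : ℝ) < (1 / ((w : ℝ) + 1)) ^ (1 - ε) := by positivity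
    positivity
  set c : ℝ := min (c₁ / 2) (c₁ ^ 2 / 16) with hc
  have hc0 : 0 < c := by
    rw [hc]
    exact lt_min (by positivity) (by positivity)
  refine ⟨c, hc0, ?_⟩
  intro Ω _ _ N a φ hN hinj ha hat f hf hfd B hB hB0
  have hNr : (1 : ℝ) ≤ N := by exact_mod_cast hN
  have hN0 : (0 : ℝ) < N := by linarith
  have hB1 : (1 : ℝ) ≤ B.card := by exact_mod_cast hB.card_pos
  have hBp : (0 : ℝ) < B.card := by linarith
  have hΩ : (0 : ℝ) < (Fintype.card Ω : ℝ) ^ N := by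
    have : (0 : ℝ) < Fintype.card Ω := by exact_mod_cast Fintype.card_pos
    positivity
  set X := XX φ M with hX
  have hV1 : ∀ i, n + 1 ≤ (V φ M i).card := by
    intro i
    have h1 := V_card φ a w (1 / (2 * ((n : ℝ) + 1))) (by positivity) ha hat i
    have h2 : ((n : ℝ) + 1) ≤ (V φ M i).card := by
      have h3 : 2 * (1 / (2 * ((n : ℝ) + 1))) * ((V φ M i).card : ℝ) =
          ((V φ M i).card : ℝ) / (n + 1) := by field_simp
      rw [← hM, h3, le_div_iff₀ (by positivity), one_mul] at h1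
      exact h1
    exact_mod_cast h2
  have hXN : N ≤ (w + 1) * X.card := XX_card φ a hinj w M ha fun i => by
    have := hV1 i
    omega
  have hXNr : (N : ℝ) ≤ (w + 1) * X.card := by exact_mod_cast hXN
  have hXne : X.Nonempty := by
    rw [← card_pos]
    by_contra hcon
    have : X.card = 0 := by omega
    rw [this] at hXN
    omega
  have hcl : Clust n w X := clust φ a w n M ha fun i => by
    have := hV1 i
    omega
  have hpX := hp f hf hfd X hXne hcl B hB hB0
  haveI : Nonempty (Fin N) := ⟨⟨0, hN⟩⟩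
  have hex : ∀ x : ℤ, ∃ i : Fin N, x ∈ X → x ∈ V φ M i := by
    intro x
    by_cases hx : x ∈ X
    · obtain ⟨i, -, hi⟩ := mem_biUnion.1 hx
      exact ⟨i, fun _ => hi⟩
    · exact ⟨Classical.arbitrary _, fun h => absurd h hx⟩
  choose idx hidx using hex
  set Ug := AB B (vals f X) with hUg
  have hX1 : (1 : ℝ) ≤ X.card := by exact_mod_cast hXne.card_pos
  have hX0 : (0 : ℝ) < X.card := by linarith
  set μ : ℝ := Ug.card / M with hμ
  have hμ0 : 0 ≤ μ := by positivity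
  have hμ1 : c₁ * ((B.card : ℝ) * N) ^ (1 - ε) ≤ μ := by
    rw [hμ, hc₁, le_div_iff₀ (by positivity)]
    have h1 : (1 / ((w : ℝ) + 1)) ^ (1 - ε) * ((B.card : ℝ) * N) ^ (1 - ε) ≤
        ((B.card : ℝ) * X.card) ^ (1 - ε) := by
      rw [← Real.mul_rpow (by positivity) (by positivity)]
      refine Real.rpow_le_rpow (by positivity) ?_ (by linarith)
      rw [one_div, inv_mul_le_iff₀ hw1]
      nlinarith
    calc c₀ * (1 / ((w : ℝ) + 1)) ^ (1 - ε) / M * ((B.card : ℝ) * N) ^ (1 - ε) * M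
        = c₀ * ((1 / ((w : ℝ) + 1)) ^ (1 - ε) * ((B.card : ℝ) * N) ^ (1 - ε)) := by
          field_simp
      _ ≤ c₀ * ((B.card : ℝ) * X.card) ^ (1 - ε) := mul_le_mul_of_nonneg_left h1 (by positivity)
      _ ≤ _ := hpX
  have hsum : μ * (Fintype.card Ω : ℝ) ^ N ≤
      ∑ o : Fin N → Ω, ((mult B f (fun i => φ i (o i))).card : ℝ) := by
    have h1 := sum_ge N (fun o : Fin N → Ω => mult B f (fun i => φ i (o i))) Ug
      ((Fintype.card Ω : ℝ) ^ N / M) (by
        intro u hu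
        obtain ⟨s, hs, rfl⟩ := mem_image.1 hu
        obtain ⟨hs1, hs2⟩ := mem_product.1 hs
        obtain ⟨x, hx, hxe⟩ := mem_image.1 (mem_of_mem_erase hs2)
        have h2 := prob_ge (Ω := Ω) (κ := Unit) N φ (fun _ => idx x)
          (fun _ _ _ => rfl) (fun _ => x) M hM0 (fun _ => V_prob φ M _ (hidx _ hx))
        rw [Fintype.card_unit, pow_one] at h2
        refine h2.trans ?_
        refine Nat.cast_le.2 (card_le_card fun o ho => ?_)
        simp only [mem_filter] at ho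
        have ho' : φ (idx x) (o (idx x)) = x := ho.2 ()
        refine mem_filter.2 ⟨mem_univ _, mem_image.2 ⟨(s.1, idx x),
          mem_product.2 ⟨hs1, mem_univ _⟩, ?_⟩⟩
        show s.1 * ((f.eval (φ (idx x) (o (idx x))) : ℤ) : ℂ) = s.1 * (s.2 : ℂ)
        rw [ho', hxe])
    calc μ * (Fintype.card Ω : ℝ) ^ N = (Ug.card : ℝ) * ((Fintype.card Ω : ℝ) ^ N / M) := by
          rw [hμ]; ring
      _ ≤ _ := h1
  have hmc := mc N (fun o : Fin N → Ω => ((mult B f (fun i => φ i (o i))).card : ℝ))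
    (B.card : ℝ) μ hN hBp hμ0 (fun o i b => bdA B f φ o i b) hsum
  have hBN : (0 : ℝ) < (B.card : ℝ) * N := by positivity
  have hcN : c * ((B.card : ℝ) * N) ^ (1 - ε) ≤ μ / 2 := by
    have h1 : c * ((B.card : ℝ) * N) ^ (1 - ε) ≤ c₁ / 2 * ((B.card : ℝ) * N) ^ (1 - ε) :=
      mul_le_mul_of_nonneg_right (min_le_left _ _) (by positivity)
    linarith
  have hid : (((B.card : ℝ) * N) ^ (1 - ε)) ^ 2 =
      ((N : ℝ) ^ (1 - 2 * ε) * (B.card : ℝ) ^ (-(2 * ε))) * (N * (B.card : ℝ) ^ 2) := by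
    rw [Real.mul_rpow hBp.le hN0.le, mul_pow, ← Real.rpow_natCast, ← Real.rpow_mul hBp.le,
      ← Real.rpow_natCast ((N : ℝ) ^ (1 - ε)), ← Real.rpow_mul hN0.le]
    have e1 : (N : ℝ) ^ ((1 - ε) * ((2 : ℕ) : ℝ)) = (N : ℝ) ^ (1 - 2 * ε) * N := by
      nth_rewrite 3 [← Real.rpow_one (N : ℝ)]
      rw [← Real.rpow_add hN0]
      congr 1
      push_cast
      ring
    have e2 : (B.card : ℝ) ^ ((1 - ε) * ((2 : ℕ) : ℝ)) =
        (B.card : ℝ) ^ (-(2 * ε)) * (B.card : ℝ) ^ 2 := by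
      rw [← Real.rpow_natCast (B.card : ℝ) 2, ← Real.rpow_add hBp]
      congr 1
      push_cast
      ring
    rw [e1, e2]
    ring
  have hexp : c * ((N : ℝ) ^ (1 - 2 * ε) * (B.card : ℝ) ^ (-(2 * ε))) ≤
      μ ^ 2 / (16 * N * (B.card : ℝ) ^ 2) := by
    rw [le_div_iff₀ (by positivity)]
    have h1 : (c₁ * ((B.card : ℝ) * N) ^ (1 - ε)) ^ 2 ≤ μ ^ 2 :=
      pow_le_pow_left₀ (by positivity) hμ1 2
    refine le_trans ?_ h1
    have he : (c₁ * ((B.card : ℝ) * N) ^ (1 - ε)) ^ 2 = c₁ ^ 2 *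
        (((N : ℝ) ^ (1 - 2 * ε) * (B.card : ℝ) ^ (-(2 * ε))) * (N * (B.card : ℝ) ^ 2)) := by
      rw [mul_pow, hid]
    rw [he]
    have h2 : c ≤ c₁ ^ 2 / 16 := min_le_right _ _
    have h3 : c * 16 ≤ c₁ ^ 2 := by linarith
    have h4 : 0 ≤ ((N : ℝ) ^ (1 - 2 * ε) * (B.card : ℝ) ^ (-(2 * ε))) *
        (N * (B.card : ℝ) ^ 2) := by positivity
    calc c * ((N : ℝ) ^ (1 - 2 * ε) * (B.card : ℝ) ^ (-(2 * ε))) * (16 * N * (B.card : ℝ) ^ 2)
        = c * 16 * (((N : ℝ) ^ (1 - 2 * ε) * (B.card : ℝ) ^ (-(2 * ε))) *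
            (N * (B.card : ℝ) ^ 2)) := by ring
      _ ≤ _ := mul_le_mul_of_nonneg_right h3 h4
  calc (((univ : Finset (Fin N → Ω)).filter (fun o =>
      ((mult B f (fun i => φ i (o i))).card : ℝ) < c * (B.card * (N : ℝ)) ^ (1 - ε))).card : ℝ)
      ≤ (((univ : Finset (Fin N → Ω)).filter (fun o =>
        ((mult B f (fun i => φ i (o i))).card : ℝ) ≤ μ / 2)).card : ℝ) := by
        refine Nat.cast_le.2 (card_le_card fun o ho => ?_)
        refine mem_filter.2 ⟨mem_univ _, ?_⟩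
        exact ((mem_filter.1 ho).2.le).trans hcN
    _ ≤ _ := hmc
    _ ≤ _ := by
        refine mul_le_mul_of_nonneg_right ?_ hΩ.le
        exact Real.exp_le_exp.2 (neg_le_neg hexp)

end Run7.h183.Smooth
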